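import Pool.Agent.Lib.LR28.LS

/-! Marks of finite group actions, equivariant sections, Moebius coefficients. -/

namespace Pool.Agent.Lib.LR28

open MulAction

section Bij
variable {U : Type*} {A B A' B' : U → Prop} {R R' : U → U → Prop}

theorem IsBij.congr (h : IsBij A B R) (hA : ∀ z, A' z ↔ A z) (hB : ∀ z, B' z ↔ B z) :
    IsBij A' B' R := by
  rwa [show A' = A from funext fun z => propext (hA z),
    show B' = B from funext fun z => propext (hB z)]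

theorem IsBij.union (h : IsBij A B R) (h' : IsBij A' B' R') (hA : ∀ z, A z → ¬A' z)
    (hB : ∀ z, B z → ¬B' z) : IsBij (fun z => A z ∨ A' z) (fun z => B z ∨ B' z)
      (fun x y => (A x ∧ B y ∧ R x y) ∨ (A' x ∧ B' y ∧ R' x y)) := by
  refine ⟨?_, ?_, ?_, ?_⟩
  · rintro z (hz | hz)
    · obtain ⟨y, a, b⟩ := h.1 z hz
      exact ⟨y, Or.inl a, Or.inl ⟨hz, a, b⟩⟩
    · obtain ⟨y, a, b⟩ := h'.1 z hz
      exact ⟨y, Or.inr a, Or.inr ⟨hz, a, b⟩⟩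
  · rintro z (hz | hz)
    · obtain ⟨y, a, b⟩ := h.2.1 z hz
      exact ⟨y, Or.inl a, Or.inl ⟨a, hz, b⟩⟩
    · obtain ⟨y, a, b⟩ := h'.2.1 z hz
      exact ⟨y, Or.inr a, Or.inr ⟨a, hz, b⟩⟩
  · rintro z y y' - - - (⟨a, b, c⟩ | ⟨a, b, c⟩) (⟨a', b', c'⟩ | ⟨a', b', c'⟩)
    · exact h.2.2.1 _ _ _ a b b' c c'
    · exact absurd a' (hA _ a)
    · exact absurd a (hA _ a')
    · exact h'.2.2.1 _ _ _ a b b' c c'
  · rintro z y y' - - - (⟨a, b, c⟩ | ⟨a, b, c⟩) (⟨a', b', c'⟩ | ⟨a', b', c'⟩)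
    · exact h.2.2.2 _ _ _ b a a' c c'
    · exact absurd b' (hB _ b)
    · exact absurd b (hB _ b')
    · exact h'.2.2.2 _ _ _ b a a' c c'

theorem IsBij.refl (A : U → Prop) : IsBij A A Eq :=
  ⟨fun z h => ⟨z, h, rfl⟩, fun z h => ⟨z, h, rfl⟩, fun _ _ _ _ _ _ a b => a.symm.trans b,
    fun _ _ _ _ _ _ a b => a.trans b.symm⟩

theorem IsBij.ncard (h : IsBij A B R) : {z | A z}.ncard = {z | B z}.ncard := by
  choose f hf using h.1
  refine Set.ncard_congr f (fun a ha => (hf a ha).1) (fun a b ha hb e => ?_) (fun b hb => ?_)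
  · exact h.2.2.2 _ _ _ (hf a ha).1 ha hb (hf a ha).2 (e ▸ (hf b hb).2)
  · obtain ⟨a, ha, r⟩ := h.2.1 b hb
    exact ⟨a, ha, h.2.2.1 _ _ _ ha (hf a ha).1 hb (hf a ha).2 r⟩

variable {Γ : Type*} [Group Γ] [MulAction Γ U]

theorem IsBij.smul (h : IsBij A B R) (g : Γ) :
    IsBij (fun z => A (g • z)) (fun z => B (g • z)) (fun x y => R (g • x) (g • y)) := by
  refine ⟨fun z hz => ?_, fun z hz => ?_,
    fun _ _ _ a b c r r' => smul_left_cancel g (h.2.2.1 _ _ _ a b c r r'),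
    fun _ _ _ a b c r r' => smul_left_cancel g (h.2.2.2 _ _ _ a b c r r')⟩
  · obtain ⟨y, a, b⟩ := h.1 _ hz
    exact ⟨g⁻¹ • y, by simpa using a, by simpa using b⟩
  · obtain ⟨y, a, b⟩ := h.2.1 _ hz
    exact ⟨g⁻¹ • y, by simpa using a, by simpa using b⟩

theorem IsBij.fix (h : IsBij A B R) (S : Subgroup Γ) (hA : ∀ g ∈ S, ∀ z, A z → A (g • z))
    (hB : ∀ g ∈ S, ∀ z, B z → B (g • z)) (hR : ∀ g ∈ S, ∀ x y, R x y → R (g • x) (g • y)) :
    IsBij (fun z => A z ∧ ∀ s ∈ S, s • z = z) (fun z => B z ∧ ∀ s ∈ S, s • z = z) R := by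
  refine ⟨fun z hz => ?_, fun z hz => ?_,
    fun _ _ _ a b c r r' => h.2.2.1 _ _ _ a.1 b.1 c.1 r r',
    fun _ _ _ a b c r r' => h.2.2.2 _ _ _ a.1 b.1 c.1 r r'⟩
  · obtain ⟨y, a, b⟩ := h.1 _ hz.1
    exact ⟨y, ⟨a, fun s hs => h.2.2.1 _ _ _ hz.1 (hB s hs _ a) a
      (by simpa only [hz.2 s hs] using hR s hs _ _ b) b⟩, b⟩
  · obtain ⟨y, a, b⟩ := h.2.1 _ hz.1
    exact ⟨y, ⟨a, fun s hs => h.2.2.2 _ _ _ hz.1 (hA s hs _ a) a
      (by simpa only [hz.2 s hs] using hR s hs _ _ b) b⟩, b⟩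

/-- finite sets with the same marks are isomorphic -/
theorem burnside (E : Subgroup Γ) (k : ℕ) : ∀ (A B : U → Prop), {z | A z}.ncard = k →
    {z | A z}.Finite → {z | B z}.Finite → (∀ g ∈ E, ∀ z, A z → A (g • z)) →
    (∀ g ∈ E, ∀ z, B z → B (g • z)) →
    (∀ S ≤ E, {z | A z ∧ ∀ s ∈ S, s • z = z}.ncard = {z | B z ∧ ∀ s ∈ S, s • z = z}.ncard) →
    ∃ R, IsBij A B R ∧ ∀ g ∈ E, ∀ x y, R x y → R (g • x) (g • y) := by
  induction k using Nat.strong_induction_on with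
  | _ k ih =>
  intro A B hk fA fB iA iB hm
  have ex : ∀ (A B : U → Prop), {z | A z}.Finite → {z | B z}.Finite →
      (∀ S ≤ E, {z | A z ∧ ∀ s ∈ S, s • z = z}.ncard = {z | B z ∧ ∀ s ∈ S, s • z = z}.ncard) →
      ∀ x, A x → ∃ y, B y ∧ E ⊓ stabilizer Γ x ≤ E ⊓ stabilizer Γ y := by
    intro A B fA fB hm x hx
    have h1 : 0 < {z | A z ∧ ∀ s ∈ E ⊓ stabilizer Γ x, s • z = z}.ncard :=
      (Set.ncard_pos (fA.subset fun z hz => hz.1)).2 ⟨x, hx, fun s hs => hs.2⟩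
    rw [hm _ inf_le_left] at h1
    obtain ⟨y, hy, h2⟩ := Set.nonempty_of_ncard_ne_zero h1.ne'
    exact ⟨y, hy, fun s hs => ⟨hs.1, h2 s hs⟩⟩
  by_cases hne : ({z | A z} ∪ {z | B z}).Nonempty
  swap
  · exact ⟨fun _ _ => False, ⟨fun z hz => absurd ⟨z, Or.inl hz⟩ hne,
      fun z hz => absurd ⟨z, Or.inr hz⟩ hne, fun _ _ _ _ _ _ a => a.elim,
      fun _ _ _ _ _ _ a => a.elim⟩, fun _ _ _ _ a => a⟩
  have hxy : ∃ x y, A x ∧ B y ∧ E ⊓ stabilizer Γ x = E ⊓ stabilizer Γ y := by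
    obtain ⟨t, ht, hmax⟩ := (fA.union fB).exists_maximalFor (fun z => E ⊓ stabilizer Γ z) _ hne
    rcases ht with ht | ht
    · obtain ⟨y, hy, hle⟩ := ex A B fA fB hm t ht
      exact ⟨t, y, ht, hy, le_antisymm hle (hmax (Or.inr hy) hle)⟩
    · obtain ⟨y, hy, hle⟩ := ex B A fB fA (fun S hS => (hm S hS).symm) t ht
      exact ⟨y, t, hy, ht, le_antisymm (hmax (Or.inl hy) hle) hle⟩
  obtain ⟨x, y, hx, hy, hst⟩ := hxy
  let O : U → U → Prop := fun x z => ∃ g ∈ E, z = g • x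
  have iO : ∀ x, ∀ g ∈ E, ∀ z, O x z → O x (g • z) := by
    rintro x g hg z ⟨g', hg', rfl⟩
    exact ⟨g * g', E.mul_mem hg hg', (mul_smul _ _ _).symm⟩
  have iO' : ∀ x, ∀ g ∈ E, ∀ z, ¬O x z → ¬O x (g • z) := fun x g hg z hz h =>
    hz (by simpa using iO x g⁻¹ (E.inv_mem hg) _ h)
  have tr : ∀ x y : U, E ⊓ stabilizer Γ x = E ⊓ stabilizer Γ y → ∀ g ∈ E, ∀ g' ∈ E,
      g • x = g' • x → g • y = g' • y := by
    intro x y h g hg g' hg' e
    have : g'⁻¹ * g ∈ E ⊓ stabilizer Γ y := h ▸ ⟨E.mul_mem (E.inv_mem hg') hg, by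
      show (g'⁻¹ * g) • x = x
      rw [mul_smul, e, inv_smul_smul]⟩
    have e2 : (g'⁻¹ * g) • y = y := this.2
    rwa [mul_smul, inv_smul_eq_iff] at e2
  let R1 : U → U → Prop := fun a b => ∃ g ∈ E, a = g • x ∧ b = g • y
  have b1 : IsBij (O x) (O y) R1 := by
    refine ⟨?_, ?_, ?_, ?_⟩
    · rintro _ ⟨g, hg, rfl⟩
      exact ⟨g • y, ⟨g, hg, rfl⟩, g, hg, rfl, rfl⟩
    · rintro _ ⟨g, hg, rfl⟩
      exact ⟨g • x, ⟨g, hg, rfl⟩, g, hg, rfl, rfl⟩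
    · rintro _ _ _ - - - ⟨g, hg, rfl, rfl⟩ ⟨g', hg', e, rfl⟩
      exact tr x y hst g hg g' hg' e
    · rintro _ _ _ - - - ⟨g, hg, rfl, rfl⟩ ⟨g', hg', rfl, e⟩
      exact tr y x hst.symm g hg g' hg' e
  have i1 : ∀ g ∈ E, ∀ a b, R1 a b → R1 (g • a) (g • b) := by
    rintro g hg _ _ ⟨g', hg', rfl, rfl⟩
    exact ⟨g * g', E.mul_mem hg hg', (mul_smul _ _ _).symm, (mul_smul _ _ _).symm⟩
  have sp : ∀ (A : U → Prop) (x : U) (C : U → Prop), {z | A z}.Finite → A x →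
      (∀ g ∈ E, ∀ z, A z → A (g • z)) → {z | A z ∧ C z}.ncard =
        {z | O x z ∧ C z}.ncard + {z | (A z ∧ ¬O x z) ∧ C z}.ncard := by
    intro A x C fA hx iA
    have sub : ∀ z, O x z → A z := by
      rintro _ ⟨g, hg, rfl⟩
      exact iA g hg _ hx
    rw [← Set.ncard_union_eq (Set.disjoint_left.2 fun z a b => b.1.2 a.1)
      (fA.subset fun z hz => sub z hz.1) (fA.subset fun z hz => hz.1.1)]
    congr 1
    ext z
    by_cases h : O x z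
    · simp [h, sub z h]
    · simp [h]
  obtain ⟨R2, b2, i2⟩ := ih {z | A z ∧ ¬O x z}.ncard (by
      rw [← hk]
      exact Set.ncard_lt_ncard ⟨fun z hz => hz.1, fun h => (h hx).2 ⟨1, E.one_mem, by simp⟩⟩ fA)
    (fun z => A z ∧ ¬O x z) (fun z => B z ∧ ¬O y z) rfl (fA.subset fun z hz => hz.1)
    (fB.subset fun z hz => hz.1) (fun g hg z hz => ⟨iA g hg z hz.1, iO' x g hg z hz.2⟩)
    (fun g hg z hz => ⟨iB g hg z hz.1, iO' y g hg z hz.2⟩) (fun S hS => by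
      have e1 := hm S hS
      rw [sp A x _ fA hx iA, sp B y _ fB hy iB, (b1.fix S (fun g hg => iO x g (hS hg))
        (fun g hg => iO y g (hS hg)) (fun g hg => i1 g (hS hg))).ncard] at e1
      exact Nat.add_left_cancel e1)
  refine ⟨_, (b1.union b2 (fun z a b => b.2 a) (fun z a b => b.2 a)).congr (fun z => ?_)
    (fun z => ?_), ?_⟩
  · refine ⟨fun h => (em (O x z)).imp id fun h' => ⟨h, h'⟩, ?_⟩
    rintro (⟨g, hg, rfl⟩ | h)
    · exact iA g hg _ hx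
    · exact h.1
  · refine ⟨fun h => (em (O y z)).imp id fun h' => ⟨h, h'⟩, ?_⟩
    rintro (⟨g, hg, rfl⟩ | h)
    · exact iB g hg _ hy
    · exact h.1
  · rintro g hg a b (⟨c, d, e⟩ | ⟨c, d, e⟩)
    · exact Or.inl ⟨iO x g hg _ c, iO y g hg _ d, i1 g hg _ _ e⟩
    · exact Or.inr ⟨⟨iA g hg _ c.1, iO' x g hg _ c.2⟩, ⟨iB g hg _ d.1, iO' y g hg _ d.2⟩,
        i2 g hg _ _ e⟩

/-- equivariant sections -/
theorem exists_section {E Q Ω : Type*} [Group E] [Group Q] [MulAction Q Ω] [Nonempty U]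
    (φ : E →* Γ) (ψ : E →* Q) (p : U → Ω) (hp : ∀ e z, p (φ e • z) = ψ e • p z)
    (W : Ω → Prop) (hW : ∀ e ω, W ω → W (ψ e • ω)) (Ok : U → Prop)
    (hOk : ∀ e z, Ok z → Ok (φ e • z))
    (h : ∀ ω, W ω → ∃ z, Ok z ∧ p z = ω ∧ ∀ e, ψ e • ω = ω → φ e • z = z) :
    ∃ σ : Ω → U, ∀ ω, W ω → Ok (σ ω) ∧ p (σ ω) = ω ∧ ∀ e, σ (ψ e • ω) = φ e • σ ω := by
  choose! x hx using h
  let st : Setoid Ω :=
    { r := fun a b => ∃ e, ψ e • a = b
      iseqv := ⟨fun a => ⟨1, by simp⟩, by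
        rintro a _ ⟨e, rfl⟩
        exact ⟨e⁻¹, by simp⟩, by
        rintro a _ _ ⟨e, rfl⟩ ⟨e', rfl⟩
        exact ⟨e' * e, by simp [mul_smul]⟩⟩ }
  have hr : ∀ ω, ∃ e, ψ e • (Quotient.mk st ω).out = ω := fun ω => Quotient.mk_out (s := st) ω
  choose c hc using hr
  refine ⟨fun ω => φ (c ω) • x (Quotient.mk st ω).out, fun ω hω => ?_⟩
  have h1 : W (Quotient.mk st ω).out := by
    have := hW (c ω)⁻¹ _ hω
    rwa [map_inv, inv_smul_eq_iff.2 (hc ω).symm] at this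
  obtain ⟨a1, a2, a3⟩ := hx _ h1
  refine ⟨hOk _ _ a1, by rw [hp, a2, hc], fun e => ?_⟩
  have h2 : Quotient.mk st (ψ e • ω) = Quotient.mk st ω := 
    (Quotient.sound (s := st) (show ∃ e', ψ e' • ω = ψ e • ω from ⟨e, rfl⟩)).symm
  have h3 := hc (ψ e • ω)
  rw [h2] at h3
  have h4 := a3 ((c (ψ e • ω))⁻¹ * (e * c ω)) (by
    rw [map_mul, map_mul, mul_smul, mul_smul, hc, map_inv, inv_smul_eq_iff, h3])
  rw [map_mul, map_mul, mul_smul, mul_smul, map_inv, inv_smul_eq_iff] at h4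
  simp only [h2, h4]

end Bij

theorem exists_moebius {α : Type*} [PartialOrder α] [DecidableLE α] (F : Finset α) :
    ∃ d : α → ℤ, ∀ x ∈ F, ∑ y ∈ F, (if x ≤ y then d y else 0) = 1 := by
  classical
  induction F using Finset.strongInduction with
  | _ F ih =>
  rcases F.eq_empty_or_nonempty with rfl | hne
  · exact ⟨0, by simp⟩
  obtain ⟨m, hm, hmin⟩ := F.exists_minimal hne
  obtain ⟨d, hd⟩ := ih (F.erase m) (Finset.erase_ssubset hm)
  refine ⟨Function.update d m (1 - ∑ y ∈ F.erase m, (if m ≤ y then d y else 0)), fun x hx => ?_⟩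
  have e0 : ∀ c : ℤ, ∑ y ∈ F.erase m, (if x ≤ y then Function.update d m c y else 0) =
      ∑ y ∈ F.erase m, (if x ≤ y then d y else 0) := fun c => Finset.sum_congr rfl fun y hy => by
    rw [Function.update_of_ne (Finset.ne_of_mem_erase hy)]
  rw [← Finset.add_sum_erase F _ hm, Function.update_self, e0]
  by_cases e : x = m
  · subst e
    simp
  · rw [if_neg fun h => e (le_antisymm h (hmin hx h)), zero_add]
    exact hd x (Finset.mem_erase.2 ⟨e, hx⟩)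

theorem ncard_sigma {J : Type*} [Fintype J] {α : J → Type*} [∀ j, Finite (α j)]
    (P : (Σ j, α j) → Prop) : {z | P z}.ncard = ∑ j, {c : α j | P ⟨j, c⟩}.ncard := by
  have e : {z | P z} ≃ Σ j, {c : α j | P ⟨j, c⟩} :=
    { toFun := fun z => ⟨z.1.1, z.1.2, z.2⟩
      invFun := fun z => ⟨⟨z.1, z.2.1⟩, z.2.2⟩
      left_inv := fun _ => rfl
      right_inv := fun _ => rfl }
  rw [← Nat.card_coe_set_eq, Nat.card_congr e, Nat.card_sigma]
  rfl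

end Pool.Agent.Lib.LR28
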