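import Pool.Agent.Lib.LR28.Core
import Pool.Agent.Lib.LR28.Burn

/-! Control of fusion and finite covers with prescribed vertex groups. -/

namespace Pool.Agent.Lib.LR28

open SimpleGraph MulAction

section Basic
variable {G : Type*} [Group G]

theorem fi_comap {G' : Type*} [Group G'] (f : G' →* G) (M : Subgroup G) (hM : M.FiniteIndex) :
    (M.comap f).FiniteIndex :=
  finiteIndex_of_fun _ (fun g => ((f g : G) : G ⧸ M)) fun g g' e => by
    rw [Subgroup.mem_comap, map_mul, map_inv]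
    exact QuotientGroup.eq.1 e

theorem fg_map {G' : Type*} [Group G'] (f : G' →* G) (M : Subgroup G') (hM : M.FG) :
    (M.map f).FG := by
  obtain ⟨S, hS, hf⟩ := (Subgroup.fg_iff _).1 hM
  exact (Subgroup.fg_iff _).2 ⟨f '' S, by rw [← hS, MonoidHom.map_closure], hf.image _⟩

theorem vr_comap (A : Subgroup G) (hA : IsVirtualRetract A) (M : Subgroup A) (hM : M.FiniteIndex) :
    ∃ M' : Subgroup G, M'.FiniteIndex ∧ ∀ a : A, (a : G) ∈ M' ↔ a ∈ M := by
  obtain ⟨K, hK, hle, ρ, hρ⟩ := hA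
  refine ⟨(M.comap ρ).map K.subtype, ⟨?_⟩, fun a => ⟨?_, fun h => ?_⟩⟩
  · rw [Subgroup.index_map_subtype]
    exact mul_ne_zero (fi_comap ρ M hM).1 hK.1
  · rintro ⟨x, hx, e⟩
    have : x = ⟨a, hle a.2⟩ := Subtype.ext e
    rw [this] at hx
    rw [← hρ a]
    exact hx
  · exact ⟨⟨a, hle a.2⟩, by show ρ _ ∈ M; rwa [hρ a], rfl⟩

theorem vr_trans (B A : Subgroup G) (hBA : B ≤ A) (h2 : IsVirtualRetract (B.subgroupOf A))
    (h1 : IsVirtualRetract A) : IsVirtualRetract B := by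
  obtain ⟨K, hK, hle, ρ, hρ⟩ := h1
  obtain ⟨K2, hK2, hle2, ρ2, hρ2⟩ := h2
  have hfi : ((K2.comap ρ).map K.subtype).FiniteIndex := ⟨by
    rw [Subgroup.index_map_subtype]
    exact mul_ne_zero (fi_comap ρ K2 hK2).1 hK.1⟩
  have m1 : ∀ k : (K2.comap ρ).map K.subtype, (k : G) ∈ K := by
    rintro ⟨_, x, -, rfl⟩
    exact x.2
  have m2 : ∀ k : (K2.comap ρ).map K.subtype, ρ ⟨k, m1 k⟩ ∈ K2 := by
    rintro ⟨_, x, hx, rfl⟩
    exact hx
  have e : ∀ b (hb : b ∈ B), ρ ⟨b, hle (hBA hb)⟩ = ⟨b, hBA hb⟩ := fun b hb => hρ ⟨b, hBA hb⟩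
  refine ⟨_, hfi, fun b hb => ⟨⟨b, hle (hBA hb)⟩, ?_, rfl⟩, MonoidHom.mk'
    (fun k => ⟨((ρ2 ⟨_, m2 k⟩ : A) : G), (ρ2 ⟨_, m2 k⟩).2⟩) fun a b => Subtype.ext ?_,
    fun b => Subtype.ext ?_⟩
  · show ρ _ ∈ K2
    rw [e b hb]
    exact hle2 hb
  · have : (⟨ρ ⟨(a * b : _), m1 (a * b)⟩, m2 (a * b)⟩ : K2) = ⟨_, m2 a⟩ * ⟨_, m2 b⟩ :=
      Subtype.ext (map_mul ρ ⟨a, m1 a⟩ ⟨b, m1 b⟩)
    show ((ρ2 _ : A) : G) = _
    rw [this, map_mul]
    rfl
  · have h3 := hρ2 ⟨⟨b, hBA b.2⟩, b.2⟩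
    have : ∀ h, (⟨ρ ⟨b, hle (hBA b.2)⟩, h⟩ : K2) = ⟨⟨b, hBA b.2⟩, hle2 b.2⟩ :=
      fun h => Subtype.ext (e b b.2)
    show ((ρ2 ⟨ρ ⟨b, hle (hBA b.2)⟩, _⟩ : A) : G) = b
    rw [this, h3]

theorem zpowers_fg (g : G) : (Subgroup.zpowers g).FG :=
  ⟨{g}, by simp [Subgroup.zpowers_eq_closure]⟩

theorem cyc_sep (g : G) (hvr : IsVirtualRetract (Subgroup.zpowers g)) (hg : g ≠ 1) :
    ∃ M : Subgroup G, M.FiniteIndex ∧ g ∉ M := by
  have : ∃ C : Subgroup (Subgroup.zpowers g), C.FiniteIndex ∧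
      (⟨g, Subgroup.mem_zpowers g⟩ : Subgroup.zpowers g) ∉ C := by
    by_cases ho : IsOfFinOrder g
    · have : Finite (Subgroup.zpowers g) := (finite_zpowers.2 ho).to_subtype
      exact ⟨⊥, inferInstance, fun e => hg (congrArg Subtype.val (Subgroup.mem_bot.1 e))⟩
    · have hk : ∀ x : Subgroup.zpowers g, ∃ k : ℤ, g ^ k = x := fun x => x.2
      choose k hk using hk
      refine ⟨(Subgroup.zpowers (g ^ (2 : ℤ))).subgroupOf _, finiteIndex_of_fun _
        (fun x => ((k x : ℤ) : ZMod 2)) fun x y e => ?_, ?_⟩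
      · obtain ⟨c, hc⟩ := (ZMod.intCast_eq_intCast_iff_dvd_sub _ _ _).1 e
        refine ⟨c, ?_⟩
        show (g ^ (2 : ℤ)) ^ c = (x : G)⁻¹ * y
        rw [← hk x, ← hk y, ← zpow_mul, ← zpow_neg, ← zpow_add]
        congr 1
        push_cast at hc
        omega
      · rintro ⟨c, hc⟩
        have e : g ^ (2 * c) = g ^ (1 : ℤ) := by rw [zpow_mul, zpow_one]; exact hc
        have := injective_zpow_iff_not_isOfFinOrder.2 ho e
        omega
  obtain ⟨C, hC, hgC⟩ := this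
  obtain ⟨M, hM, hM'⟩ := vr_comap _ hvr C hC
  exact ⟨M, hM, fun e => hgC ((hM' ⟨g, _⟩).1 e)⟩

end Basic

variable {G V : Type*} [Group G] [MulAction G V] {T : SimpleGraph V}

theorem inf_fg (hT : T.IsTree)
    (hG : ∀ (g : G) (u w : V), T.Adj u w → T.Adj (g • u) (g • w))
    (hinv : ∀ (g : G) (u w : V), T.Adj u w → g • u = w → g • w ≠ u)
    (hedge : ∀ u w, T.Adj u w → {g : G | g • u = u ∧ g • w = w}.Finite)
    (H : Subgroup G) (hH : H.FG) (w : V) : (H ⊓ stabilizer G w).FG := by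
  have h := stabilizer_fg (Γ := H) hT (fun g => hG g) (fun g => hinv g)
    (fun u w h => (hedge u w h).preimage Subtype.val_injective.injOn)
    (Group.fg_def.1 ((Group.fg_iff_subgroup_fg H).2 hH)) w
  have e : H ⊓ stabilizer G w = (stabilizer H w).map H.subtype := by
    ext g
    exact ⟨fun hg => ⟨⟨g, hg.1⟩, hg.2, rfl⟩, by rintro ⟨x, hx, rfl⟩; exact ⟨x.2, hx⟩⟩
  rw [e]
  exact fg_map _ _ h

theorem criterion (hT : T.IsTree)
    (hG : ∀ (g : G) (u w : V), T.Adj u w → T.Adj (g • u) (g • w))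
    (hinv : ∀ (g : G) (u w : V), T.Adj u w → g • u = w → g • w ≠ u)
    (hedge : ∀ u w, T.Adj u w → {g : G | g • u = u ∧ g • w = w}.Finite)
    (h : ∀ (v : V) (B : Subgroup G), B.FG → B ≤ stabilizer G v → IsVirtualRetract B) :
    HasLR G := fun H hH => core hT hG hinv hedge H hH fun w F hF hF' => by
  have hvr := h w _ (inf_fg hT hG hinv hedge H hH w) inf_le_right
  obtain ⟨M, h1, h2, h3⟩ := sep_finite _ F hF fun g hg =>
    sep_of_vr _ hvr g (fun e => (hF' g hg).2 e.1) fun b hb => cyc_sep _ (h w _ (zpowers_fg _)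
      ((Subgroup.zpowers_le).2 (mul_mem (inv_mem (hF' g hg).1) hb.2)))
  exact GR_of_vr H _ F hvr M h1 h2 h3

theorem exists_nbrs (hG : ∀ (g : G) (u w : V), T.Adj u w → T.Adj (g • u) (g • w))
    (hfin : ∃ F : Finset (V × V), ∀ u w, T.Adj u w → ∃ g : G, (g • u, g • w) ∈ F) (v : V) :
    ∃ W : Set V, W.Finite ∧ (∀ w ∈ W, T.Adj v w) ∧
      ∀ w, T.Adj v w → ∃ a : stabilizer G v, (a : G) • w ∈ W := by
  obtain ⟨F, hF⟩ := hfin
  have : ∀ x : V, ∃ g : G, (∃ k : G, k • x = v) → g • x = v := fun x => by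
    by_cases h : ∃ k : G, k • x = v
    · exact ⟨h.choose, fun _ => h.choose_spec⟩
    · exact ⟨1, fun h' => absurd h' h⟩
  choose c hc using this
  refine ⟨{w ∈ (fun d : V × V => c d.1 • d.2) '' F | T.Adj v w},
    (F.finite_toSet.image _).subset fun w hw => hw.1, fun w hw => hw.2, fun w hw => ?_⟩
  obtain ⟨g, hg⟩ := hF v w hw
  have e : (c (g • v) * g) • v = v := by
    rw [mul_smul]
    exact hc _ ⟨g⁻¹, inv_smul_smul g v⟩
  refine ⟨⟨c (g • v) * g, e⟩, ⟨_, hg, (mul_smul _ _ _).symm⟩, ?_⟩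
  have := hG (c (g • v) * g) _ _ hw
  rwa [e] at this

/-- the normal subgroup `N` of the vertex group controls the fusion of the edge groups -/
def Ctrl (T : SimpleGraph V) (v : V) (N : Subgroup (stabilizer G v)) : Prop :=
  ∀ w w', T.Adj v w → T.Adj v w' → ∀ Φ : Set (stabilizer G v × stabilizer G v),
    (∀ p ∈ Φ, (p.1 : G) • w = w ∧ (p.2 : G) • w' = w') →
    (∃ a, ∀ p ∈ Φ, p.2⁻¹ * (a * p.1 * a⁻¹) ∈ N) → ∃ a, ∀ p ∈ Φ, p.2 = a * p.1 * a⁻¹

theorem Ctrl.free {v : V} {N : Subgroup (stabilizer G v)} (h : Ctrl T v N) {w : V}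
    (hw : T.Adj v w) {g : stabilizer G v} (hg : g ∈ N) (e : (g : G) • w = w) : g = 1 := by
  obtain ⟨a, ha⟩ := h w w hw hw {(g, 1)} (by rintro _ rfl; exact ⟨e, one_smul G w⟩)
    ⟨1, by rintro _ rfl; simpa using hg⟩
  have := ha _ rfl
  simpa using this.symm

theorem exists_ctrl (hG : ∀ (g : G) (u w : V), T.Adj u w → T.Adj (g • u) (g • w))
    (hedge : ∀ u w, T.Adj u w → {g : G | g • u = u ∧ g • w = w}.Finite)
    (hfin : ∃ F : Finset (V × V), ∀ u w, T.Adj u w → ∃ g : G, (g • u, g • w) ∈ F) (v : V)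
    (hfus : ∀ w w', T.Adj v w → T.Adj v w' →
      SepConj ((stabilizer G w).subgroupOf (stabilizer G v))
        ((stabilizer G w').subgroupOf (stabilizer G v))) :
    ∃ N : Subgroup (stabilizer G v), N.FiniteIndex ∧ Ctrl T v N := by
  obtain ⟨W, hW, hW1, hW2⟩ := exists_nbrs hG hfin v
  let Big : Set (stabilizer G v) := ⋃ w ∈ W, {g | (g : G) • w = w}
  have hBig : Big.Finite := hW.biUnion fun w hw =>
    ((hedge v w (hW1 w hw)).preimage Subtype.val_injective.injOn).subset fun g hg => ⟨g.2, hg⟩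
  let I : Set (Set (stabilizer G v × stabilizer G v)) := {Φ | Φ ⊆ Big ×ˢ Big ∧
    ∃ N : Subgroup (stabilizer G v), N.Normal ∧ N.FiniteIndex ∧
      ¬∃ a, ∀ p ∈ Φ, p.2⁻¹ * (a * p.1 * a⁻¹) ∈ N}
  have hI : Finite I := ((hBig.prod hBig).finite_subsets.subset fun Φ h => h.1).to_subtype
  choose N hN1 hN2 hN3 using fun Φ : I => Φ.2.2
  have hn : (⨅ Φ, N Φ).Normal := Subgroup.normal_iInf_normal hN1
  refine ⟨⨅ Φ, N Φ, Subgroup.finiteIndex_iInf hN2, ?_⟩
  rintro w w' hw hw' Φ hΦ ⟨a, ha⟩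
  obtain ⟨b, hb⟩ := hW2 w hw
  obtain ⟨b', hb'⟩ := hW2 w' hw'
  let Ψ : Set (stabilizer G v × stabilizer G v) :=
    (fun p => (b * p.1 * b⁻¹, b' * p.2 * b'⁻¹)) '' Φ
  have h1 : ∀ p ∈ Ψ, (p.1 : G) • (b : G) • w = (b : G) • w ∧
      (p.2 : G) • (b' : G) • w' = (b' : G) • w' := by
    rintro _ ⟨p, hp, rfl⟩
    simp only [Subgroup.coe_mul, Subgroup.coe_inv, mul_smul, inv_smul_smul, (hΦ p hp).1,
      (hΦ p hp).2, and_self]
  obtain ⟨c, hc⟩ := hfus _ _ (hW1 _ hb) (hW1 _ hb') Ψ h1 fun N' n1 n2 => by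
    by_contra hcon
    refine hN3 ⟨Ψ, fun p hp => ⟨Set.mem_biUnion hb (h1 p hp).1, Set.mem_biUnion hb' (h1 p hp).2⟩,
      N', n1, n2, hcon⟩ ⟨b' * a * b⁻¹, ?_⟩
    rintro _ ⟨p, hp, rfl⟩
    refine Subgroup.mem_iInf.1 (?_ : _ ∈ ⨅ Φ, N Φ) _
    have := hn.conj_mem _ (ha p hp) b'
    simpa only [mul_inv_rev, inv_inv, mul_assoc, inv_mul_cancel_left] using this
  refine ⟨b'⁻¹ * c * b, fun p hp => ?_⟩
  have := hc _ ⟨p, hp, rfl⟩
  simp only at this
  calc p.2 = b'⁻¹ * (b' * p.2 * b'⁻¹) * b' := by group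
    _ = _ := by rw [this]; group

/-- a finite index subgroup whose intersection with a vertex group is small -/
theorem cover (hT : T.IsTree)
    (hG : ∀ (g : G) (u w : V), T.Adj u w → T.Adj (g • u) (g • w))
    (hinv : ∀ (g : G) (u w : V), T.Adj u w → g • u = w → g • w ≠ u)
    (hfin : ∃ F : Finset (V × V), ∀ u w, T.Adj u w → ∃ g : G, (g • u, g • w) ∈ F)
    (N : ∀ u : V, Subgroup (stabilizer G u)) (hN : ∀ u, (N u).FiniteIndex)
    (hfree : ∀ u w, T.Adj u w → ∀ g ∈ N u, (g : G) • w = w → g = 1) (v : V) :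
    ∃ K : Subgroup G, K.FiniteIndex ∧ ∀ a : stabilizer G v, (a : G) ∈ K → a ∈ N v := by
  classical
  let r : V → V := fun u => if ∃ g : G, g • v = u then v else (Quotient.mk (orbitRel G V) u).out
  have r1 : ∀ u, ∃ g : G, g • r u = u := fun u => by
    simp only [r]
    split_ifs with h
    · exact h
    · exact (orbitRel G V).symm (Quotient.mk_out (s := orbitRel G V) u)
  have r2 : ∀ (g : G) u, r (g • u) = r u := fun g u => by
    have e : Quotient.mk (orbitRel G V) (g • u) = Quotient.mk (orbitRel G V) u :=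
      Quotient.sound ⟨g, rfl⟩
    have e' : (∃ k : G, k • v = g • u) ↔ ∃ k : G, k • v = u :=
      ⟨fun ⟨k, hk⟩ => ⟨g⁻¹ * k, by rw [mul_smul, hk, inv_smul_smul]⟩,
        fun ⟨k, hk⟩ => ⟨g * k, by rw [mul_smul, hk]⟩⟩
    simp only [r, e, e']
  have r3 : r v = v := if_pos ⟨1, one_smul _ _⟩
  have r4 : ∀ u, r (r u) = r u := fun u => by
    obtain ⟨g, hg⟩ := r1 u
    rw [← r2 g, hg]
  have hJ : (Set.range r).Finite := by
    obtain ⟨F, hF⟩ := hfin
    refine ((F.finite_toSet.image fun d => r d.1).insert v).subset ?_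
    rintro _ ⟨u, rfl⟩
    obtain ⟨p⟩ := hT.connected.preconnected u v
    cases p with
    | nil => exact Or.inl r3
    | cons h p =>
      obtain ⟨g, hg⟩ := hF _ _ h
      exact Or.inr ⟨_, hg, r2 g u⟩
  have := hJ.fintype
  let m : Set.range r → ℕ := fun j => ∏ j' ∈ Finset.univ.erase j, (N j').index
  let L : (Σ j : Set.range r, Fin (m j)) → Subgroup G := fun x =>
    (N x.1).map (stabilizer G (x.1 : V)).subtype
  let Fib : V → (Σ x, G ⧸ L x) → Prop := fun u z => ∃ (g : G) (x : Σ j : Set.range r, Fin (m j)),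
    g • (x.1 : V) = u ∧ z = g • base L x
  have hFib : ∀ (g : G) u z, Fib u z → Fib (g • u) (g • z) := by
    rintro g _ _ ⟨k, x, rfl, rfl⟩
    exact ⟨g * k, x, mul_smul _ _ _, (mul_smul _ _ _).symm⟩
  have hcard : ∀ u, {z | Fib u z}.Finite ∧
      {z | Fib u z}.ncard = ∏ j : Set.range r, (N j).index := by
    intro u
    obtain ⟨g0, hg0⟩ := r1 u
    let j0 : Set.range r := ⟨r u, u, rfl⟩
    let φ : Fin (m j0) × (stabilizer G (j0 : V) ⧸ N j0) → Σ x, G ⧸ L x := fun y =>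
      (g0 * (y.2.out : G)) • base L ⟨j0, y.1⟩
    have hφ : Function.Injective φ := by
      rintro ⟨i, c⟩ ⟨i', c'⟩ e
      obtain ⟨e1, x, hx, e2⟩ := (base_eq _ _ _ _ _).1 e
      refine Prod.ext (eq_of_heq (Sigma.mk.inj_iff.1 e1).2) ?_
      show c = c'
      rw [← c.out_eq', ← c'.out_eq', Quotient.eq'', QuotientGroup.leftRel_apply]
      have : x = c.out⁻¹ * c'.out := Subtype.ext (by simpa [mul_assoc] using e2)
      rwa [this] at hx
    have hr : {z | Fib u z} = Set.range φ := by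
      ext z
      constructor
      · rintro ⟨g, ⟨⟨_, u', rfl⟩, i⟩, e, rfl⟩
        have e1 : r u' = r u := by rw [← e, r2, r4]
        have e2 : (⟨r u', u', rfl⟩ : Set.range r) = j0 := Subtype.ext e1
        have e3 : g • (j0 : V) = u := e2 ▸ e
        revert i
        rw [e2]
        intro i _
        have hm : g0⁻¹ * g ∈ stabilizer G (j0 : V) := by
          show (g0⁻¹ * g) • (j0 : V) = r u
          rw [mul_smul, e3, inv_smul_eq_iff, hg0]
        refine ⟨(i, ((⟨_, hm⟩ : stabilizer G (j0 : V)) : _ ⧸ N j0)), (base_eq _ _ _ _ _).2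
          ⟨rfl, _, QuotientGroup.eq.1 (QuotientGroup.out_eq'
            ((⟨_, hm⟩ : stabilizer G (j0 : V)) : _ ⧸ N j0)), ?_⟩⟩
        simp [mul_assoc]
      · rintro ⟨y, rfl⟩
        refine ⟨_, _, ?_, rfl⟩
        rw [mul_smul, y.2.out.2]
        exact hg0
    have := hN j0
    rw [hr]
    refine ⟨Set.finite_range φ, ?_⟩
    rw [← Nat.card_coe_set_eq, Nat.card_range_of_injective hφ, Nat.card_prod, Nat.card_fin]
    exact Finset.prod_erase_mul _ (fun j : Set.range r => (N j).index) (Finset.mem_univ j0)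
  have hfr : ∀ u w, T.Adj u w → ∀ z, Fib u z → ∀ g : G, g • w = w → g • z = z → g = 1 := by
    rintro _ w h _ ⟨k, x, rfl, rfl⟩ g e1 e2
    rw [← mul_smul, eq_comm, base_eq] at e2
    obtain ⟨-, y, hy, e3⟩ := e2
    have e4 : (y : G) = k⁻¹ * (g * k) := e3
    have := hfree x.1 (k⁻¹ • w) (by simpa using hG k⁻¹ _ _ h) y hy (by
      rw [e4, mul_smul, mul_smul, smul_inv_smul, e1])
    rw [this, eq_comm, Subgroup.coe_one, inv_mul_eq_one] at e4
    simpa using e4.symm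
  have m0 : 0 < m ⟨v, v, r3⟩ := Finset.prod_pos fun j _ => Nat.pos_of_ne_zero (hN j).1
  obtain ⟨K, f, h1, h2, h3, h4, -⟩ := gls hT hG hinv Fib hFib (fun _ _ _ _ => False)
    (fun _ _ _ _ _ a => a) (fun _ _ _ _ a => a) (fun _ _ _ _ a => a.elim) (fun u w h => by
      obtain ⟨R, b1, b2⟩ := burnside (stabilizer G u ⊓ stabilizer G w) _ (Fib u) (Fib w) rfl
        (hcard u).1 (hcard w).1 (fun g hg z hz => hg.1 ▸ hFib g u z hz)
        (fun g hg z hz => hg.2 ▸ hFib g w z hz) fun S hS => by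
          by_cases e : S = ⊥
          · subst e
            simp only [Subgroup.mem_bot, forall_eq, one_smul, and_true]
            rw [(hcard u).2, (hcard w).2]
          · obtain ⟨⟨s, hs⟩, hs1⟩ := Subgroup.ne_bot_iff_exists_ne_one.1 e
            have hs2 : s ≠ 1 := fun e => hs1 (Subtype.ext e)
            have e1 : {z | Fib u z ∧ ∀ s ∈ S, s • z = z} = ∅ := Set.eq_empty_of_forall_notMem
              fun z hz => hs2 (hfr u w h z hz.1 s (hS hs).2 (hz.2 s hs))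
            have e2 : {z | Fib w z ∧ ∀ s ∈ S, s • z = z} = ∅ := Set.eq_empty_of_forall_notMem
              fun z hz => hs2 (hfr w u h.symm z hz.1 s (hS hs).1 (hz.2 s hs))
            rw [e1, e2]
      exact ⟨R, b1, fun g a b => b2 g ⟨a, b⟩, fun _ _ a => a.elim⟩)
    v (base L ⟨⟨v, v, r3⟩, ⟨0, m0⟩⟩) ⟨1, _, one_smul _ _, (one_smul _ _).symm⟩
  have := (hcard v).1.to_subtype
  refine ⟨K, finiteIndex_of_fun K (fun g => (⟨f g, h2 g⟩ : {z | Fib v z}))
    fun g g' e => (h3 g g').1 (congrArg Subtype.val e), fun a ha => ?_⟩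
  have e1 := h4 a 1 a.2
  rw [mul_one, ← (h3 1 a).2 (by simpa using ha), h1] at e1
  nth_rw 1 [← one_smul G (base L _)] at e1
  obtain ⟨-, y, hy, e2⟩ := (base_eq _ _ _ _ _).1 e1
  have : y = a := Subtype.ext (by simpa using e2)
  exact this ▸ hy

end Pool.Agent.Lib.LR28
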