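import Mathlib

/-! Local systems on a tree: sections, their stabilisers, equivariant choice of transports. -/

namespace Pool.Agent.Lib.LR28

open SimpleGraph

section Sec
variable {V U : Type*} {T : SimpleGraph V}

/-- transport along a walk -/
def tr (t : V → V → U → U) : ∀ {a b : V}, T.Walk a b → U → U
  | _, _, Walk.nil, z => z
  | a, _, @Walk.cons _ _ _ c _ _ p, z => tr t p (t a c z)

theorem tr_eq : True := by
  have := @tr.eq_def.{0, 0}
  have := @tr.eq_1.{0, 0}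
  have := @tr.eq_2.{0, 0}
  trivial

theorem tr_concat (t : V → V → U → U) {a b c : V} (p : T.Walk a b) (h : T.Adj b c) (z : U) :
    tr t (p.concat h) z = t b c (tr t p z) := by
  induction p generalizing z with
  | nil => rfl
  | cons h' p ih => rw [Walk.concat_cons]; exact ih h _

theorem sec_exists (hT : T.IsTree) (Fib : V → U → Prop) (R : V → V → U → U → Prop)
    (hsym : ∀ u w z z', T.Adj u w → R u w z z' → R w u z' z)
    (htot : ∀ u w z, T.Adj u w → Fib u z → ∃ z', Fib w z' ∧ R u w z z')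
    (u0 : V) (z0 : U) (h0 : Fib u0 z0) :
    ∃ σ : V → U, σ u0 = z0 ∧ (∀ u, Fib u (σ u)) ∧ ∀ u w, T.Adj u w → R u w (σ u) (σ w) := by
  classical
  let t : V → V → U → U := fun u w z =>
    if h : T.Adj u w ∧ Fib u z then (htot u w z h.1 h.2).choose else z
  have ht : ∀ u w z, T.Adj u w → Fib u z → Fib w (t u w z) ∧ R u w z (t u w z) := by
    intro u w z h1 h2
    have : t u w z = (htot u w z h1 h2).choose := dif_pos ⟨h1, h2⟩
    rw [this]
    exact (htot u w z h1 h2).choose_spec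
  have hfib : ∀ {a b : V} (p : T.Walk a b) (z : U), Fib a z → Fib b (tr t p z) := by
    intro a b p
    induction p with
    | nil => intro z hz; exact hz
    | cons h p ih => intro z hz; exact ih _ (ht _ _ _ h hz).1
  choose P hP hP' using hT.existsUnique_path u0
  refine ⟨fun w => tr t (P w) z0, ?_, fun u => hfib _ _ h0, ?_⟩
  · have : P u0 = Walk.nil := (hP' u0 Walk.nil Walk.IsPath.nil).symm
    simp only [this]; rfl
  · intro u w h
    by_cases hw : w ∈ (P u).support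
    · have e := hT.isAcyclic.path_concat (hP w) (hP u) h.symm hw
      simp only [e, tr_concat]
      exact hsym _ _ _ _ h.symm (ht _ _ _ h.symm (hfib _ _ h0)).2
    · have hv : u ∈ (P w).support :=
        hT.isAcyclic.mem_support_of_ne_mem_support_of_adj_of_isPath (hP w) (hP u) h.symm hw
      have e := hT.isAcyclic.path_concat (hP u) (hP w) h hv
      simp only [e, tr_concat]
      exact (ht _ _ _ h (hfib _ _ h0)).2

theorem sec_unique (hT : T.IsTree) (Fib : V → U → Prop) (R : V → V → U → U → Prop)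
    (huni : ∀ u w z z' z'', T.Adj u w → Fib u z → Fib w z' → Fib w z'' → R u w z z' →
      R u w z z'' → z' = z'')
    (σ σ' : V → U) (h1 : ∀ u, Fib u (σ u)) (h2 : ∀ u w, T.Adj u w → R u w (σ u) (σ w))
    (h1' : ∀ u, Fib u (σ' u)) (h2' : ∀ u w, T.Adj u w → R u w (σ' u) (σ' w))
    (u0 : V) (h0 : σ u0 = σ' u0) : σ = σ' := by
  funext w
  obtain ⟨p⟩ := hT.connected.preconnected u0 w
  induction p with
  | nil => exact h0
  | @cons a c b h p ih =>
    apply ih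
    exact huni a c (σ a) _ _ h (h1 a) (h1 c) (h1' c) (h2 a c h) (h0 ▸ h2' a c h)

end Sec

section Grp
variable {Γ V U : Type*} [Group Γ] [MulAction Γ V] [MulAction Γ U] {T : SimpleGraph V}

/-- chains of related points over adjacent vertices -/
def Chain (T : SimpleGraph V) (P : V → V → U → U → Prop) (u0 : V) (z0 : U) (u : V) (z : U) :
    Prop :=
  Relation.ReflTransGen (fun a b : V × U => T.Adj a.1 b.1 ∧ P a.1 b.1 a.2 b.2) (u0, z0) (u, z)

theorem Chain.refl {P : V → V → U → U → Prop} {u0 : V} {z0 : U} : Chain T P u0 z0 u0 z0 :=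
  Relation.ReflTransGen.refl

theorem Chain.step {P : V → V → U → U → Prop} {u0 : V} {z0 : U} {u w : V} {z z' : U}
    (h : Chain T P u0 z0 u z) (ha : T.Adj u w) (hp : P u w z z') : Chain T P u0 z0 w z' :=
  Relation.ReflTransGen.tail h ⟨ha, hp⟩

theorem Chain.ind {P : V → V → U → U → Prop} {u0 : V} {z0 : U} (Q : V → U → Prop) (h0 : Q u0 z0)
    (hs : ∀ u w z z', Q u z → T.Adj u w → P u w z z' → Q w z') {u : V} {z : U}
    (h : Chain T P u0 z0 u z) : Q u z := by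
  have : ∀ b : V × U, Relation.ReflTransGen
      (fun a b : V × U => T.Adj a.1 b.1 ∧ P a.1 b.1 a.2 b.2) (u0, z0) b → Q b.1 b.2 := by
    intro b hb
    induction hb with
    | refl => exact h0
    | tail _ h2 ih => exact hs _ _ _ _ ih h2.1 h2.2
  exact this (u, z) h

theorem ls_core (hT : T.IsTree) (hG : ∀ (g : Γ) (u w : V), T.Adj u w → T.Adj (g • u) (g • w))
    (Fib : V → U → Prop) (hFib : ∀ (g : Γ) u z, Fib u z → Fib (g • u) (g • z))
    (R : V → V → U → U → Prop)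
    (hR : ∀ (g : Γ) u w z z', R u w z z' → R (g • u) (g • w) (g • z) (g • z'))
    (hsym : ∀ u w z z', T.Adj u w → R u w z z' → R w u z' z)
    (htot : ∀ u w z, T.Adj u w → Fib u z → ∃ z', Fib w z' ∧ R u w z z')
    (huni : ∀ u w z z' z'', T.Adj u w → Fib u z → Fib w z' → Fib w z'' → R u w z z' →
      R u w z z'' → z' = z'')
    (P : V → V → U → U → Prop)
    (hP : ∀ u w z z', T.Adj u w → Fib u z → P u w z z' → Fib w z' ∧ R u w z z')
    (u0 : V) (z0 : U) (h0 : Fib u0 z0) :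
    ∃ (L : Subgroup Γ) (f : Γ → U), f 1 = z0 ∧ (∀ g, Fib u0 (f g)) ∧
      (∀ g g', f g = f g' ↔ g⁻¹ * g' ∈ L) ∧ (∀ b g, b • u0 = u0 → f (b * g) = b • f g) ∧
      ∀ g : Γ, Chain T P u0 z0 (g • u0) (g • z0) → g ∈ L := by
  obtain ⟨σ, hσ0, hσ1, hσ2⟩ := sec_exists hT Fib R hsym htot u0 z0 h0
  let s : Γ → V → U := fun g u => g • σ (g⁻¹ • u)
  have hs1 : ∀ g u, Fib u (s g u) := by
    intro g u
    have := hFib g _ _ (hσ1 (g⁻¹ • u))
    rwa [smul_inv_smul] at this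
  have hs2 : ∀ g u w, T.Adj u w → R u w (s g u) (s g w) := by
    intro g u w h
    have := hR g _ _ _ _ (hσ2 _ _ (hG g⁻¹ _ _ h))
    rwa [smul_inv_smul, smul_inv_smul] at this
  have hsu : ∀ g g' u, s g u = s g' u → s g = s g' := fun g g' u h =>
    sec_unique hT Fib R huni _ _ (hs1 g) (hs2 g) (hs1 g') (hs2 g') u h
  have hmul : ∀ g g' u, s (g * g') u = g • s g' (g⁻¹ • u) := by
    intro g g' u
    simp only [s, mul_smul, mul_inv_rev]
  have hone : s 1 = σ := by funext u; simp [s]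
  let L : Subgroup Γ :=
    { carrier := {g | s g = σ}
      one_mem' := hone
      mul_mem' := by
        intro a b ha hb
        simp only [Set.mem_ofPred_eq] at ha hb ⊢
        funext u
        rw [hmul, hb]
        exact congrFun ha u
      inv_mem' := by
        intro a ha
        simp only [Set.mem_ofPred_eq] at ha ⊢
        funext u
        have := congrFun ha (a • u)
        simp only [s, inv_smul_smul] at this
        simp only [s, inv_inv, ← this, inv_smul_smul] }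
  refine ⟨L, fun g => s g u0, ?_, fun g => hs1 g u0, ?_, ?_, ?_⟩
  · simp only [hone, hσ0]
  · intro g g'
    constructor
    · intro h
      have e := hsu g g' u0 h
      show s (g⁻¹ * g') = σ
      funext u
      rw [hmul, ← e]
      simp [s]
    · intro h
      have h' : s (g⁻¹ * g') = σ := h
      have : s g' u0 = s (g * (g⁻¹ * g')) u0 := by rw [mul_inv_cancel_left]
      show s g u0 = s g' u0
      rw [this, hmul, h']
  · intro b g hb
    show s (b * g) u0 = b • s g u0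
    rw [hmul]
    congr 2
    rw [inv_smul_eq_iff, hb]
  · intro g hg
    have key : ∀ u z, Chain T P u0 z0 u z → σ u = z := by
      intro u z h
      refine Chain.ind (fun u z => σ u = z) hσ0 ?_ h
      intro u w z z' ih hadj hp
      have hz : Fib u z := ih ▸ hσ1 u
      obtain ⟨a, b⟩ := hP _ _ _ _ hadj hz hp
      exact huni u w z _ _ hadj hz (hσ1 w) a (ih ▸ hσ2 u w hadj) b
    show s g = σ
    rw [← hone]
    apply hsu g 1 (g • u0)
    rw [hone, key _ _ hg]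
    simp [s, hσ0]

/-- `R` is a bijection between the points with `A` and the points with `B` -/
def IsBij (A B : U → Prop) (R : U → U → Prop) : Prop :=
  (∀ z, A z → ∃ z', B z' ∧ R z z') ∧ (∀ z', B z' → ∃ z, A z ∧ R z z') ∧
  (∀ z z' z'', A z → B z' → B z'' → R z z' → R z z'' → z' = z'') ∧
  (∀ z z' z'', B z → A z' → A z'' → R z' z → R z'' z → z' = z'')

theorem IsBij.symm {A B : U → Prop} {R : U → U → Prop} (h : IsBij A B R) :
    IsBij B A (fun x y => R y x) :=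
  ⟨h.2.1, h.1, h.2.2.2, h.2.2.1⟩

theorem IsBij.trans {A B C : U → Prop} {R S : U → U → Prop} (h : IsBij A B R) (h' : IsBij B C S) :
    IsBij A C (fun x z => ∃ y, B y ∧ R x y ∧ S y z) := by
  refine ⟨?_, ?_, ?_, ?_⟩
  · intro z hz
    obtain ⟨y, hy, r⟩ := h.1 z hz
    obtain ⟨x, hx, s⟩ := h'.1 y hy
    exact ⟨x, hx, y, hy, r, s⟩
  · intro z hz
    obtain ⟨y, hy, r⟩ := h'.2.1 z hz
    obtain ⟨x, hx, s⟩ := h.2.1 y hy
    exact ⟨x, hx, y, hy, s, r⟩
  · rintro z z' z'' a b c ⟨y, hy, r, s⟩ ⟨y', hy', r', s'⟩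
    have := h.2.2.1 _ _ _ a hy hy' r r'
    subst this
    exact h'.2.2.1 _ _ _ hy b c s s'
  · rintro z z' z'' a b c ⟨y, hy, r, s⟩ ⟨y', hy', r', s'⟩
    have := h'.2.2.2 _ _ _ a hy hy' s s'
    subst this
    exact h.2.2.2 _ _ _ hy b c r r'

theorem gls (hT : T.IsTree) (hG : ∀ (g : Γ) (u w : V), T.Adj u w → T.Adj (g • u) (g • w))
    (hinv : ∀ (g : Γ) (u w : V), T.Adj u w → g • u = w → g • w ≠ u)
    (Fib : V → U → Prop) (hFib : ∀ (g : Γ) u z, Fib u z → Fib (g • u) (g • z))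
    (P : V → V → U → U → Prop)
    (hPi : ∀ (g : Γ) u w z z', P u w z z' → P (g • u) (g • w) (g • z) (g • z'))
    (hPs : ∀ u w z z', P u w z z' → P w u z' z)
    (hPf : ∀ u w z z', P u w z z' → Fib u z)
    (hex : ∀ u w, T.Adj u w → ∃ R : U → U → Prop, IsBij (Fib u) (Fib w) R ∧
      (∀ g : Γ, g • u = u → g • w = w → ∀ z z', R z z' → R (g • z) (g • z')) ∧
      ∀ z z', P u w z z' → R z z')
    (u0 : V) (z0 : U) (h0 : Fib u0 z0) :
    ∃ (L : Subgroup Γ) (f : Γ → U), f 1 = z0 ∧ (∀ g, Fib u0 (f g)) ∧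
      (∀ g g', f g = f g' ↔ g⁻¹ * g' ∈ L) ∧ (∀ b g, b • u0 = u0 → f (b * g) = b • f g) ∧
      ∀ g : Γ, Chain T P u0 z0 (g • u0) (g • z0) → g ∈ L := by
  classical
  choose! R0 hR0 using hex
  let st : Setoid (V × V) :=
    { r := fun d e => ∃ g : Γ, (g • d.1 = e.1 ∧ g • d.2 = e.2) ∨ (g • d.1 = e.2 ∧ g • d.2 = e.1)
      iseqv := by
        refine ⟨fun d => ⟨1, Or.inl (by simp)⟩, ?_, ?_⟩
        · rintro d e ⟨g, h | h⟩
          · exact ⟨g⁻¹, Or.inl ⟨by rw [← h.1, inv_smul_smul], by rw [← h.2, inv_smul_smul]⟩⟩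
          · exact ⟨g⁻¹, Or.inr ⟨by rw [← h.2, inv_smul_smul], by rw [← h.1, inv_smul_smul]⟩⟩
        · rintro d e k ⟨g, h | h⟩ ⟨g', h' | h'⟩
          · exact ⟨g' * g, Or.inl ⟨by rw [mul_smul, h.1, h'.1], by rw [mul_smul, h.2, h'.2]⟩⟩
          · exact ⟨g' * g, Or.inr ⟨by rw [mul_smul, h.1, h'.1], by rw [mul_smul, h.2, h'.2]⟩⟩
          · exact ⟨g' * g, Or.inr ⟨by rw [mul_smul, h.1, h'.2], by rw [mul_smul, h.2, h'.1]⟩⟩
          · exact ⟨g' * g, Or.inl ⟨by rw [mul_smul, h.1, h'.2], by rw [mul_smul, h.2, h'.1]⟩⟩ }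
  let O : V × V → Prop := fun d => T.Adj d.1 d.2 ∧ (Quotient.mk st d).out = d
  have hOex : ∀ u w, T.Adj u w → ∃ g : Γ, O (g • u, g • w) ∨ O (g • w, g • u) := by
    intro u w h
    have h1 : st.r (u, w) (Quotient.mk st (u, w)).out := st.symm (Quotient.mk_out (s := st) (u, w))
    have h2 : (Quotient.mk st (Quotient.mk st (u, w)).out).out = (Quotient.mk st (u, w)).out := by
      rw [Quotient.out_eq]
    obtain ⟨g, h3 | h3⟩ := h1
    · refine ⟨g, Or.inl ⟨hG g _ _ h, ?_⟩⟩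
      have : (g • u, g • w) = (Quotient.mk st (u, w)).out := Prod.ext h3.1 h3.2
      rw [this, h2]
    · refine ⟨g, Or.inr ⟨hG g _ _ h.symm, ?_⟩⟩
      have : (g • w, g • u) = (Quotient.mk st (u, w)).out := Prod.ext h3.2 h3.1
      rw [this, h2]
  have hOun : ∀ d e, O d → O e → st.r d e → d = e := by
    intro d e hd he h
    rw [← hd.2, ← he.2, Quotient.sound h]
  let R : V → V → U → U → Prop := fun u w z z' => ∃ g : Γ,
    (O (g • u, g • w) ∧ R0 (g • u) (g • w) (g • z) (g • z')) ∨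
    (O (g • w, g • u) ∧ R0 (g • w) (g • u) (g • z') (g • z))
  have hchar : ∀ u w z z' (g : Γ), O (g • u, g • w) →
      (R u w z z' ↔ R0 (g • u) (g • w) (g • z) (g • z')) := by
    intro u w z z' g hO
    refine ⟨?_, fun h => ⟨g, Or.inl ⟨hO, h⟩⟩⟩
    rintro ⟨g', ⟨h1, h2⟩ | ⟨h1, h2⟩⟩
    · have e := hOun _ _ h1 hO ⟨g * g'⁻¹, Or.inl ⟨by simp [mul_smul], by simp [mul_smul]⟩⟩
      have e1 : g' • u = g • u := congrArg Prod.fst e
      have e2 : g' • w = g • w := congrArg Prod.snd e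
      have := (hR0 _ _ h1.1).2.1 (g * g'⁻¹) (by rw [mul_smul, inv_smul_smul, e1])
        (by rw [mul_smul, inv_smul_smul, e2]) _ _ h2
      rw [mul_smul, mul_smul, inv_smul_smul, inv_smul_smul, e1, e2] at this
      exact this
    · exfalso
      have e := hOun _ _ h1 hO ⟨g * g'⁻¹, Or.inr ⟨by simp [mul_smul], by simp [mul_smul]⟩⟩
      have e1 : g' • w = g • u := congrArg Prod.fst e
      have e2 : g' • u = g • w := congrArg Prod.snd e
      refine hinv (g' * g⁻¹) _ _ hO.1 ?_ ?_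
      · rw [mul_smul, inv_smul_smul, e2]
      · rw [mul_smul, inv_smul_smul, e1]
  have hsym : ∀ u w z z', R u w z z' → R w u z' z := by
    rintro u w z z' ⟨g, h | h⟩
    · exact ⟨g, Or.inr h⟩
    · exact ⟨g, Or.inl h⟩
  have hFib' : ∀ (g : Γ) u z, Fib (g • u) z → Fib u (g⁻¹ • z) := by
    intro g u z h
    have := hFib g⁻¹ _ _ h
    rwa [inv_smul_smul] at this
  refine ls_core hT hG Fib hFib R ?_ (fun u w z z' _ => hsym u w z z') ?_ ?_ P ?_ u0 z0 h0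
  · rintro g u w z z' ⟨g', h⟩
    refine ⟨g' * g⁻¹, ?_⟩
    simpa only [mul_smul, inv_smul_smul] using h
  · intro u w z h hz
    obtain ⟨g, hO | hO⟩ := hOex u w h
    · obtain ⟨y, hy, r⟩ := (hR0 _ _ hO.1).1.1 _ (hFib g _ _ hz)
      refine ⟨g⁻¹ • y, hFib' _ _ _ hy, (hchar _ _ _ _ g hO).2 ?_⟩
      rwa [smul_inv_smul]
    · obtain ⟨y, hy, r⟩ := (hR0 _ _ hO.1).1.2.1 _ (hFib g _ _ hz)
      refine ⟨g⁻¹ • y, hFib' _ _ _ hy, hsym _ _ _ _ ((hchar _ _ _ _ g hO).2 ?_)⟩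
      rwa [smul_inv_smul]
  · intro u w z z' z'' h a b c r r'
    obtain ⟨g, hO | hO⟩ := hOex u w h
    · exact smul_left_cancel g ((hR0 _ _ hO.1).1.2.2.1 _ _ _ (hFib g _ _ a) (hFib g _ _ b)
        (hFib g _ _ c) ((hchar _ _ _ _ g hO).1 r) ((hchar _ _ _ _ g hO).1 r'))
    · exact smul_left_cancel g ((hR0 _ _ hO.1).1.2.2.2 _ _ _ (hFib g _ _ a) (hFib g _ _ b)
        (hFib g _ _ c) ((hchar _ _ _ _ g hO).1 (hsym _ _ _ _ r))
        ((hchar _ _ _ _ g hO).1 (hsym _ _ _ _ r')))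
  · intro u w z z' h _ hp
    refine ⟨hPf _ _ _ _ (hPs _ _ _ _ hp), ?_⟩
    obtain ⟨g, hO | hO⟩ := hOex u w h
    · exact (hchar _ _ _ _ g hO).2 ((hR0 _ _ hO.1).2.2 _ _ (hPi g _ _ _ _ hp))
    · exact hsym _ _ _ _ ((hchar _ _ _ _ g hO).2
        ((hR0 _ _ hO.1).2.2 _ _ (hPi g _ _ _ _ (hPs _ _ _ _ hp))))

/-- constant fibres: every invariant symmetric functional relation extends after doubling -/
theorem key {Z : Type*} [MulAction Γ Z] (hT : T.IsTree)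
    (hG : ∀ (g : Γ) (u w : V), T.Adj u w → T.Adj (g • u) (g • w))
    (hinv : ∀ (g : Γ) (u w : V), T.Adj u w → g • u = w → g • w ≠ u)
    (P : V → V → Z → Z → Prop)
    (hPi : ∀ (g : Γ) u w z z', P u w z z' → P (g • u) (g • w) (g • z) (g • z'))
    (hPs : ∀ u w z z', P u w z z' → P w u z' z)
    (hPf : ∀ u w z z' z'', P u w z z' → P u w z z'' → z' = z'') (u0 : V) (z0 : Z) :
    ∃ (L : Subgroup Γ) (f : Γ → Z ⊕ Z), f 1 = Sum.inl z0 ∧
      (∀ g g', f g = f g' ↔ g⁻¹ * g' ∈ L) ∧ (∀ b g, b • u0 = u0 → f (b * g) = b • f g) ∧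
      ∀ g : Γ, Chain T P u0 z0 (g • u0) (g • z0) → g ∈ L := by
  let Q : V → V → Z ⊕ Z → Z ⊕ Z → Prop := fun u w x y =>
    ∃ z z', x = Sum.inl z ∧ y = Sum.inl z' ∧ P u w z z'
  refine (gls (Γ := Γ) hT hG hinv (fun _ (_ : Z ⊕ Z) => True)
    (fun _ _ _ _ => trivial) Q ?_ ?_ (fun _ _ _ _ _ => trivial) ?_ u0 (Sum.inl z0)
    trivial).elim ?_
  rotate_left 3
  · rintro L ⟨f, h1, -, h2, h3, h4⟩
    refine ⟨L, f, h1, h2, h3, fun g hg => h4 g ?_⟩
    exact Chain.ind (fun u z => Chain T Q u0 (Sum.inl z0) u (Sum.inl z)) Chain.refl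
      (fun u w z z' ih ha hp => ih.step ha ⟨z, z', rfl, rfl, hp⟩) hg
  · rintro g u w x y ⟨z, z', rfl, rfl, hp⟩
    exact ⟨g • z, g • z', rfl, rfl, hPi g _ _ _ _ hp⟩
  · rintro u w x y ⟨z, z', rfl, rfl, hp⟩
    exact ⟨z', z, rfl, rfl, hPs _ _ _ _ hp⟩
  · intro u w _
    have hinj : ∀ z z' y, P u w z y → P u w z' y → z = z' := fun z z' y a b =>
      hPf w u y z z' (hPs _ _ _ _ a) (hPs _ _ _ _ b)
    let S1 : Z ⊕ Z → Z ⊕ Z → Prop := fun x y =>
      (∃ z, (∃ t, P u w z t) ∧ ((x = Sum.inl z ∧ y = Sum.inr z) ∨ (x = Sum.inr z ∧ y = Sum.inl z))) ∨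
      (x = y ∧ ∀ z t, P u w z t → x ≠ Sum.inl z ∧ x ≠ Sum.inr z)
    let S2 : Z ⊕ Z → Z ⊕ Z → Prop := fun x y =>
      (∃ z t, P u w z t ∧ ((x = Sum.inr z ∧ y = Sum.inl t) ∨ (x = Sum.inl t ∧ y = Sum.inr z))) ∨
      (x = y ∧ ∀ z t, P u w z t → x ≠ Sum.inr z ∧ x ≠ Sum.inl t)
    have inv_bij : ∀ S : Z ⊕ Z → Z ⊕ Z → Prop, (∀ x y, S x y → S y x) → (∀ x, ∃ y, S x y) →
        (∀ x y y', S x y → S x y' → y = y') → IsBij (fun _ => True) (fun _ => True) S := by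
      intro S hs ht hu
      refine ⟨fun x _ => ?_, fun x _ => ?_, fun x y y' _ _ _ a b => hu x y y' a b,
        fun x y y' _ _ _ a b => hu x y y' (hs _ _ a) (hs _ _ b)⟩
      · obtain ⟨y, hy⟩ := ht x
        exact ⟨y, trivial, hy⟩
      · obtain ⟨y, hy⟩ := ht x
        exact ⟨y, trivial, hs _ _ hy⟩
    have b1 : IsBij (fun _ => True) (fun _ => True) S1 := by
      apply inv_bij
      · rintro x y (⟨z, hz, h | h⟩ | ⟨rfl, h⟩)
        · exact Or.inl ⟨z, hz, Or.inr ⟨h.2, h.1⟩⟩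
        · exact Or.inl ⟨z, hz, Or.inl ⟨h.2, h.1⟩⟩
        · exact Or.inr ⟨rfl, h⟩
      · intro x
        by_cases hx : ∀ z t, P u w z t → x ≠ Sum.inl z ∧ x ≠ Sum.inr z
        · exact ⟨x, Or.inr ⟨rfl, hx⟩⟩
        · push Not at hx
          obtain ⟨z, t, hp, h⟩ := hx
          by_cases h' : x = Sum.inl z
          · exact ⟨Sum.inr z, Or.inl ⟨z, ⟨t, hp⟩, Or.inl ⟨h', rfl⟩⟩⟩
          · exact ⟨Sum.inl z, Or.inl ⟨z, ⟨t, hp⟩, Or.inr ⟨h h', rfl⟩⟩⟩
      · rintro x y y' (⟨z, ⟨t, hz⟩, h | h⟩ | ⟨rfl, h⟩) (⟨z', ⟨t', hz'⟩, h' | h'⟩ | ⟨rfl, h'⟩) <;>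
          grind
    have b2 : IsBij (fun _ => True) (fun _ => True) S2 := by
      apply inv_bij
      · rintro x y (⟨z, t, hz, h | h⟩ | ⟨rfl, h⟩)
        · exact Or.inl ⟨z, t, hz, Or.inr ⟨h.2, h.1⟩⟩
        · exact Or.inl ⟨z, t, hz, Or.inl ⟨h.2, h.1⟩⟩
        · exact Or.inr ⟨rfl, h⟩
      · intro x
        by_cases hx : ∀ z t, P u w z t → x ≠ Sum.inr z ∧ x ≠ Sum.inl t
        · exact ⟨x, Or.inr ⟨rfl, hx⟩⟩
        · push Not at hx
          obtain ⟨z, t, hp, h⟩ := hx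
          by_cases h' : x = Sum.inr z
          · exact ⟨Sum.inl t, Or.inl ⟨z, t, hp, Or.inl ⟨h', rfl⟩⟩⟩
          · exact ⟨Sum.inr z, Or.inl ⟨z, t, hp, Or.inr ⟨h h', rfl⟩⟩⟩
      · rintro x y y' (⟨z, t, hz, h | h⟩ | ⟨rfl, h⟩) (⟨z', t', hz', h' | h'⟩ | ⟨rfl, h'⟩) <;>
          grind
    refine ⟨_, b1.trans b2, ?_, ?_⟩
    · intro g hu hw
      have hp : ∀ z t, P u w z t → P u w (g • z) (g • t) := by
        intro z t h
        have := hPi g _ _ _ _ h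
        rwa [hu, hw] at this
      have hp' : ∀ z t, P u w z t → P u w (g⁻¹ • z) (g⁻¹ • t) := by
        intro z t h
        have := hPi g⁻¹ _ _ _ _ h
        rwa [inv_smul_eq_iff.2 hu.symm, inv_smul_eq_iff.2 hw.symm] at this
      have el : ∀ (x : Z ⊕ Z) z, g • x = Sum.inl z → x = Sum.inl (g⁻¹ • z) := by
        intro x z h
        rw [← Sum.smul_inl, ← h, inv_smul_smul]
      have er : ∀ (x : Z ⊕ Z) z, g • x = Sum.inr z → x = Sum.inr (g⁻¹ • z) := by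
        intro x z h
        rw [← Sum.smul_inr, ← h, inv_smul_smul]
      rintro x y ⟨m, -, s1, s2⟩
      refine ⟨g • m, trivial, ?_, ?_⟩
      · rcases s1 with ⟨z, ⟨t, hz⟩, ⟨rfl, rfl⟩ | ⟨rfl, rfl⟩⟩ | ⟨rfl, h⟩
        · exact Or.inl ⟨g • z, ⟨_, hp _ _ hz⟩, Or.inl ⟨rfl, rfl⟩⟩
        · exact Or.inl ⟨g • z, ⟨_, hp _ _ hz⟩, Or.inr ⟨rfl, rfl⟩⟩
        · exact Or.inr ⟨rfl, fun z t hz => ⟨fun e => (h _ _ (hp' _ _ hz)).1 (el _ _ e),
            fun e => (h _ _ (hp' _ _ hz)).2 (er _ _ e)⟩⟩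
      · rcases s2 with ⟨z, t, hz, ⟨rfl, rfl⟩ | ⟨rfl, rfl⟩⟩ | ⟨rfl, h⟩
        · exact Or.inl ⟨g • z, g • t, hp _ _ hz, Or.inl ⟨rfl, rfl⟩⟩
        · exact Or.inl ⟨g • z, g • t, hp _ _ hz, Or.inr ⟨rfl, rfl⟩⟩
        · exact Or.inr ⟨rfl, fun z t hz => ⟨fun e => (h _ _ (hp' _ _ hz)).1 (er _ _ e),
            fun e => (h _ _ (hp' _ _ hz)).2 (el _ _ e)⟩⟩
    · rintro x y ⟨z, z', rfl, rfl, hp⟩
      exact ⟨Sum.inr z, trivial, Or.inl ⟨z, ⟨z', hp⟩, Or.inl ⟨rfl, rfl⟩⟩,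
        Or.inl ⟨z, z', hp, Or.inl ⟨rfl, rfl⟩⟩⟩

end Grp

end Pool.Agent.Lib.LR28
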