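import Pool.Agent.Lib.LR28.Defs
import Pool.Agent.Lib.LR28.LS

/-! Finitely generated subgroups of groups acting on trees with finite edge stabilisers. -/

namespace Pool.Agent.Lib.LR28

open SimpleGraph MulAction

section Basic
variable {G : Type*} [Group G]

theorem finiteIndex_of_fun {Ω : Type*} [Finite Ω] (K : Subgroup G) (φ : G → Ω)
    (h : ∀ g g', φ g = φ g' → g⁻¹ * g' ∈ K) : K.FiniteIndex := by
  have : Finite (G ⧸ K) := Finite.of_injective (fun q : G ⧸ K => φ q.out) (by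
    intro q q' e
    rw [← q.out_eq', ← q'.out_eq', QuotientGroup.eq]
    exact h _ _ e)
  exact Subgroup.finiteIndex_of_finite_quotient

/-- base point of the `j`-th coset space -/
def base {J : Type*} (L : J → Subgroup G) (j : J) : Σ j, G ⧸ L j := ⟨j, ((1 : G) : G ⧸ L j)⟩

theorem smul_base {J : Type*} (L : J → Subgroup G) (j : J) (g : G) :
    g • base L j = ⟨j, (g : G ⧸ L j)⟩ := by
  show (⟨j, g • ((1 : G) : G ⧸ L j)⟩ : Σ j, G ⧸ L j) = _
  rw [MulAction.Quotient.smul_mk, smul_eq_mul, mul_one]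

theorem base_eq {J : Type*} (L : J → Subgroup G) (j j' : J) (g g' : G) :
    g • base L j = g' • base L j' ↔ j = j' ∧ g⁻¹ * g' ∈ L j := by
  rw [smul_base, smul_base]
  constructor
  · intro h
    have e : j = j' := congrArg Sigma.fst h
    subst e
    refine ⟨rfl, ?_⟩
    rw [← QuotientGroup.eq]
    exact eq_of_heq (Sigma.mk.inj_iff.1 h).2
  · rintro ⟨rfl, h⟩
    rw [QuotientGroup.eq.2 h]

theorem base_surj {J : Type*} (L : J → Subgroup G) (z : Σ j, G ⧸ L j) :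
    ∃ (g : G) (j : J), z = g • base L j := by
  obtain ⟨j, q⟩ := z
  exact ⟨q.out, j, by rw [smul_base, QuotientGroup.out_eq']⟩

theorem vr_of_graph (H : Subgroup G) (L : Subgroup (G × H)) (h1 : ∀ h : H, (1, h) ∈ L → h = 1)
    (h2 : ∀ h : H, ((h : G), h) ∈ L) (h3 : (L.map (MonoidHom.fst G H)).FiniteIndex) :
    IsVirtualRetract H := by
  have hu : ∀ g (h h' : H), (g, h) ∈ L → (g, h') ∈ L → h = h' := by
    intro g h h' a b
    have := L.mul_mem (L.inv_mem a) b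
    simp only [Prod.inv_mk, Prod.mk_mul_mk, inv_mul_cancel] at this
    exact inv_mul_eq_one.1 (h1 _ this)
  have hex : ∀ k : L.map (MonoidHom.fst G H), ∃ h : H, ((k : G), h) ∈ L := by
    rintro ⟨k, p, hp, rfl⟩
    exact ⟨p.2, hp⟩
  choose ρ hρ using hex
  refine ⟨_, h3, fun h hh => ⟨(h, ⟨h, hh⟩), h2 ⟨h, hh⟩, rfl⟩,
    MonoidHom.mk' ρ (fun a b => hu _ _ _ (hρ (a * b)) (L.mul_mem (hρ a) (hρ b))), fun h => ?_⟩
  exact hu _ _ _ (hρ _) (h2 h)

/-- a homomorphism from a finite index subgroup of `G` that misses `F` to `H`, extending the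
inclusion of `H ⊓ B`, given by its graph -/
def GR (H B : Subgroup G) (F : Set G) : Prop :=
  ∃ L : Subgroup (G × H), (∀ h : H, (1, h) ∈ L → h = 1) ∧
    (∀ h : H, (h : G) ∈ B → ((h : G), h) ∈ L) ∧ (L.map (MonoidHom.fst G H)).FiniteIndex ∧
    ∀ p ∈ L, p.1 ∉ F

theorem GR_of_vr (H B : Subgroup G) (F : Set G) (hvr : IsVirtualRetract (H ⊓ B))
    (M : Subgroup G) (hM : M.FiniteIndex) (hBM : H ⊓ B ≤ M) (hF : ∀ g ∈ M, g ∉ F) : GR H B F := by
  obtain ⟨K, hK, hle, ρ, hρ⟩ := hvr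
  let L : Subgroup (G × H) :=
    { carrier := {p | p.1 ∈ M ∧ ∃ hk : p.1 ∈ K, (ρ ⟨p.1, hk⟩ : G) = p.2}
      one_mem' := ⟨M.one_mem, K.one_mem, by
        have : (⟨(1 : G × H).1, K.one_mem⟩ : K) = 1 := rfl
        rw [this, map_one]; rfl⟩
      mul_mem' := by
        rintro a b ⟨a1, a2, a3⟩ ⟨b1, b2, b3⟩
        refine ⟨M.mul_mem a1 b1, K.mul_mem a2 b2, ?_⟩
        have : (⟨(a * b).1, K.mul_mem a2 b2⟩ : K) = ⟨a.1, a2⟩ * ⟨b.1, b2⟩ := rfl
        rw [this, map_mul, Subgroup.coe_mul, a3, b3]; rfl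
      inv_mem' := by
        rintro a ⟨a1, a2, a3⟩
        refine ⟨M.inv_mem a1, K.inv_mem a2, ?_⟩
        have : (⟨(a⁻¹).1, K.inv_mem a2⟩ : K) = (⟨a.1, a2⟩ : K)⁻¹ := rfl
        rw [this, map_inv, Subgroup.coe_inv, a3]; rfl }
  refine ⟨L, ?_, ?_, ?_, fun p hp => hF _ hp.1⟩
  · rintro h ⟨-, a2, a3⟩
    have : (⟨((1 : G), h).1, a2⟩ : K) = 1 := rfl
    rw [this, map_one] at a3
    exact Subtype.ext a3.symm
  · intro h hb
    have hm : (h : G) ∈ H ⊓ B := ⟨h.2, hb⟩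
    exact ⟨hBM hm, hle hm, congrArg Subtype.val (hρ ⟨h, hm⟩)⟩
  · have : M ⊓ K ≤ L.map (MonoidHom.fst G H) := by
      rintro g ⟨g1, g2⟩
      exact ⟨(g, ⟨ρ ⟨g, g2⟩, (ρ ⟨g, g2⟩).2.1⟩), ⟨g1, g2, rfl⟩, rfl⟩
    exact Subgroup.finiteIndex_of_le this

/-- separation of an element from a virtual retract -/
theorem sep_of_vr (B : Subgroup G) (hvr : IsVirtualRetract B) (g : G) (hg : g ∉ B)
    (hs : ∀ b ∈ B, g⁻¹ * b ≠ 1 → ∃ M : Subgroup G, M.FiniteIndex ∧ g⁻¹ * b ∉ M) :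
    ∃ M : Subgroup G, M.FiniteIndex ∧ B ≤ M ∧ g ∉ M := by
  obtain ⟨K, hK, hle, ρ, hρ⟩ := hvr
  by_cases hk : g ∈ K
  swap
  · exact ⟨K, hK, hle, hk⟩
  obtain ⟨N, hN1, hN⟩ := hs _ (ρ ⟨g, hk⟩).2 fun e => hg (inv_mul_eq_one.1 e ▸ (ρ ⟨g, hk⟩).2)
  let q := QuotientGroup.mk' N.normalCore
  let M0 : Subgroup K := (q.comp K.subtype).eqLocus (q.comp (B.subtype.comp ρ))
  have hM0 : M0.FiniteIndex := by
    have : (q.comp K.subtype).ker ⊓ (q.comp (B.subtype.comp ρ)).ker ≤ M0 := by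
      rintro x ⟨a, b⟩
      exact (MonoidHom.mem_ker.1 a).trans (MonoidHom.mem_ker.1 b).symm
    exact Subgroup.finiteIndex_of_le this
  refine ⟨M0.map K.subtype, ⟨?_⟩, ?_, ?_⟩
  · rw [Subgroup.index_map_subtype]
    exact mul_ne_zero hM0.1 hK.1
  · intro b hb
    refine ⟨⟨b, hle hb⟩, ?_, rfl⟩
    show q b = q (ρ ⟨b, hle hb⟩ : G)
    rw [hρ ⟨b, hb⟩]
  · rintro ⟨x, hx, rfl⟩
    exact hN (N.normalCore_le (QuotientGroup.eq.1 hx))

theorem sep_finite (B : Subgroup G) (F : Set G) (hF : F.Finite)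
    (h : ∀ g ∈ F, ∃ M : Subgroup G, M.FiniteIndex ∧ B ≤ M ∧ g ∉ M) :
    ∃ M : Subgroup G, M.FiniteIndex ∧ B ≤ M ∧ ∀ g ∈ M, g ∉ F := by
  choose! M hM using h
  have := hF.to_subtype
  refine ⟨⨅ g : F, M g, Subgroup.finiteIndex_iInf (fun g => (hM g g.2).1),
    le_iInf (fun g => (hM g g.2).2.1), fun g hg hgF => ?_⟩
  exact (hM g hgF).2.2 (Subgroup.mem_iInf.1 hg ⟨g, hgF⟩)

end Basic

section Tree
variable {Γ V : Type*} [Group Γ] [MulAction Γ V] {T : SimpleGraph V}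

theorem transporter_finite {u w : V} (h : {g : Γ | g • u = u ∧ g • w = w}.Finite) (u' w' : V) :
    {g : Γ | g • u = u' ∧ g • w = w'}.Finite := by
  rcases {g : Γ | g • u = u' ∧ g • w = w'}.eq_empty_or_nonempty with e | ⟨g0, h0⟩
  · rw [e]; exact Set.finite_empty
  · refine (h.image (fun g => g0 * g)).subset ?_
    rintro g ⟨a, b⟩
    refine ⟨g0⁻¹ * g, ⟨?_, ?_⟩, by simp⟩
    · rw [mul_smul, a, ← h0.1, inv_smul_smul]
    · rw [mul_smul, b, ← h0.2, inv_smul_smul]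

theorem exists_window (hT : T.IsTree) (v : V) (S : Set V) (hS : S.Finite) :
    ∃ W : Set V, W.Finite ∧ v ∈ W ∧ ∀ u ∈ S, ∃ p : T.Walk v u, ∀ x ∈ p.support, x ∈ W := by
  have hp : ∀ u, Nonempty (T.Walk v u) := fun u => hT.connected.preconnected v u
  let p : ∀ u, T.Walk v u := fun u => (hp u).some
  refine ⟨insert v (⋃ u ∈ S, {x | x ∈ (p u).support}),
    (hS.biUnion (fun u _ => (p u).support.finite_toSet)).insert v, Set.mem_insert _ _,
    fun u hu => ⟨p u, fun x hx => Set.mem_insert_of_mem _ (Set.mem_biUnion hu hx)⟩⟩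

theorem key2 {Z : Type*} [MulAction Γ Z] (hT : T.IsTree)
    (hG : ∀ (g : Γ) (u w : V), T.Adj u w → T.Adj (g • u) (g • w))
    (hinv : ∀ (g : Γ) (u w : V), T.Adj u w → g • u = w → g • w ≠ u)
    (W : Set V) (s : V → Z)
    (hs : ∀ (g : Γ) u w, u ∈ W → w ∈ W → g • u ∈ W → g • w ∈ W → T.Adj u w →
      g • s u = s (g • u) → g • s w = s (g • w)) (v : V) :
    ∃ (L : Subgroup Γ) (f : Γ → Z ⊕ Z), f 1 = Sum.inl (s v) ∧
      (∀ g g', f g = f g' ↔ g⁻¹ * g' ∈ L) ∧ (∀ b g, b • v = v → f (b * g) = b • f g) ∧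
      ∀ g : Γ, (∃ p : T.Walk v (g • v), ∀ x ∈ p.support, x ∈ W) → g • s v = s (g • v) → g ∈ L := by
  let P : V → V → Z → Z → Prop := fun u w z z' => ∃ (g : Γ) (a b : V), a ∈ W ∧ b ∈ W ∧
    T.Adj a b ∧ u = g • a ∧ w = g • b ∧ z = g • s a ∧ z' = g • s b
  obtain ⟨L, f, h1, h2, h3, h4⟩ := key (Γ := Γ) hT hG hinv P (by
    rintro g u w z z' ⟨g', a, b, ha, hb, hab, rfl, rfl, rfl, rfl⟩
    exact ⟨g * g', a, b, ha, hb, hab, by simp only [mul_smul, and_self]⟩) (by
    rintro u w z z' ⟨g', a, b, ha, hb, hab, rfl, rfl, rfl, rfl⟩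
    exact ⟨g', b, a, hb, ha, hab.symm, rfl, rfl, rfl, rfl⟩) (by
    rintro u w z z' z'' ⟨g, a, b, ha, hb, hab, rfl, rfl, rfl, rfl⟩
      ⟨g', a', b', ha', hb', -, e1, e2, e3, rfl⟩
    have f1 : (g'⁻¹ * g) • a = a' := by rw [mul_smul, e1, inv_smul_smul]
    have f2 : (g'⁻¹ * g) • b = b' := by rw [mul_smul, e2, inv_smul_smul]
    have := hs (g'⁻¹ * g) a b ha hb (f1 ▸ ha') (f2 ▸ hb') hab
      (by rw [f1, mul_smul, e3, inv_smul_smul])
    rw [f2, mul_smul, inv_smul_eq_iff] at this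
    exact this) v (s v)
  refine ⟨L, f, h1, h2, h3, ?_⟩
  rintro g ⟨p, hp⟩ hg
  apply h4
  rw [hg]
  have : ∀ {a b : V} (p : T.Walk a b), (∀ x ∈ p.support, x ∈ W) → Chain T P v (s v) a (s a) →
      Chain T P v (s v) b (s b) := by
    intro a b p
    induction p with
    | nil => exact fun _ h => h
    | @cons a c b h p ih =>
      intro hp hc
      refine ih (fun x hx => hp x (by simp [hx])) (hc.step h ⟨1, a, c, hp a (by simp),
        hp c (by simp), h, ?_⟩)
      simp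
  exact this p hp Chain.refl

theorem stabilizer_fg (hT : T.IsTree)
    (hG : ∀ (g : Γ) (u w : V), T.Adj u w → T.Adj (g • u) (g • w))
    (hinv : ∀ (g : Γ) (u w : V), T.Adj u w → g • u = w → g • w ≠ u)
    (hedge : ∀ u w, T.Adj u w → {g : Γ | g • u = u ∧ g • w = w}.Finite)
    (hfg : (⊤ : Subgroup Γ).FG) (v : V) : (stabilizer Γ v).FG := by
  classical
  obtain ⟨S, hS, hSf⟩ := (Subgroup.fg_iff _).1 hfg
  obtain ⟨W, hW, -, hp⟩ := exists_window hT v ((fun g : Γ => g • v) '' S) (hSf.image _)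
  have hh : ∀ u : V, ∃ h : Γ, ((∃ k : Γ, k • u = v) → h • u = v) ∧ (u = v → h = 1) := by
    intro u
    by_cases e : u = v
    · exact ⟨1, fun _ => by rw [one_smul, e], fun _ => rfl⟩
    · by_cases e' : ∃ k : Γ, k • u = v
      · exact ⟨e'.choose, fun _ => e'.choose_spec, fun h => absurd h e⟩
      · exact ⟨1, fun h => absurd h e', fun _ => rfl⟩
  choose h hh1 hh2 using hh
  let Φ : Set Γ := (⋃ u ∈ W, ⋃ w ∈ W, ⋃ u' ∈ W, ⋃ w' ∈ W,
    {k : Γ | T.Adj v (h w • u) ∧ k • v = v ∧ k • (h w • u) = h w' • u'}) ∪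
    (fun g => h (g • v) * g) '' S
  have hΦf : Φ.Finite := by
    refine Set.Finite.union (hW.biUnion fun u _ => hW.biUnion fun w _ => hW.biUnion fun u' _ =>
      hW.biUnion fun w' _ => ?_) (hSf.image _)
    by_cases ha : T.Adj v (h w • u)
    · exact (transporter_finite (hedge _ _ ha) v (h w' • u')).subset fun k hk => hk.2
    · exact Set.finite_empty.subset fun k hk => ha hk.1
  have hΦs : Φ ⊆ stabilizer Γ v := by
    rintro k (hk | ⟨g, -, rfl⟩)
    · simp only [Set.mem_iUnion] at hk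
      obtain ⟨u, -, w, -, u', -, w', -, hk⟩ := hk
      exact hk.2.1
    · show (h (g • v) * g) • v = v
      rw [mul_smul]
      exact hh1 _ ⟨g⁻¹, inv_smul_smul g v⟩
  let L0 := Subgroup.closure Φ
  let s : V → Option (Γ ⧸ L0) := fun u =>
    if ∃ k : Γ, k • u = v then some (((h u)⁻¹ : Γ) : Γ ⧸ L0) else none
  have hs : ∀ (g : Γ) w, ((∃ k : Γ, k • w = v) → h (g • w) * g * (h w)⁻¹ ∈ L0) →
      g • s w = s (g • w) := by
    intro g w hm
    by_cases e : ∃ k : Γ, k • w = v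
    · have e' : ∃ k : Γ, k • g • w = v := by
        obtain ⟨k, hk⟩ := e
        exact ⟨k * g⁻¹, by rw [mul_smul, inv_smul_smul, hk]⟩
      simp only [s, if_pos e, if_pos e', Option.smul_some, MulAction.Quotient.smul_mk,
        smul_eq_mul, Option.some.injEq]
      rw [eq_comm, QuotientGroup.eq, inv_inv, ← mul_assoc]
      exact hm e
    · have e' : ¬ ∃ k : Γ, k • g • w = v := by
        rintro ⟨k, hk⟩
        exact e ⟨k * g, by rw [mul_smul, hk]⟩
      simp only [s, if_neg e, if_neg e', Option.smul_none]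
  obtain ⟨L, f, h1, h2, h3, h4⟩ := key2 (Γ := Γ) hT hG hinv W s (by
    intro g u w hu hw hu' hw' hadj _
    refine hs g w fun e => Subgroup.subset_closure (Or.inl ?_)
    simp only [Set.mem_iUnion]
    have e1 := hh1 w e
    refine ⟨u, hu, w, hw, g • u, hu', g • w, hw', ?_, ?_, ?_⟩
    · have := hG (h w) _ _ hadj.symm
      rwa [e1] at this
    · have e' : ∃ k : Γ, k • g • w = v := ⟨h w * g⁻¹, by rw [mul_smul, inv_smul_smul, e1]⟩
      rw [mul_smul, mul_smul, ← e1, inv_smul_smul, e1]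
      exact hh1 _ e'
    · rw [mul_smul, mul_smul, inv_smul_smul]) v
  have hL : L = ⊤ := by
    rw [eq_top_iff, ← hS, Subgroup.closure_le]
    intro g hg
    refine h4 g (hp _ ⟨g, hg, rfl⟩) (hs g v fun _ => ?_)
    rw [hh2 v rfl, inv_one, mul_one]
    exact Subgroup.subset_closure (Or.inr ⟨g, hg, rfl⟩)
  refine (Subgroup.fg_iff _).2 ⟨Φ, le_antisymm ((Subgroup.closure_le _).2 hΦs) ?_, hΦf⟩
  intro k hk
  have e1 := h3 k 1 hk
  have e2 : f (k * 1) = f 1 := (h2 _ _).2 (hL ▸ Subgroup.mem_top _)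
  rw [e2, h1, Sum.smul_inl, Sum.inl.injEq] at e1
  have e : ∃ k : Γ, k • v = v := ⟨1, one_smul _ _⟩
  simp only [s, if_pos e, Option.smul_some, MulAction.Quotient.smul_mk, smul_eq_mul,
    Option.some.injEq, hh2 v rfl, inv_one, mul_one] at e1
  rw [QuotientGroup.eq, inv_one, one_mul] at e1
  exact e1

end Tree

section Core
variable {G V : Type*} [Group G] [MulAction G V] {T : SimpleGraph V}

theorem core (hT : T.IsTree)
    (hG : ∀ (g : G) (u w : V), T.Adj u w → T.Adj (g • u) (g • w))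
    (hinv : ∀ (g : G) (u w : V), T.Adj u w → g • u = w → g • w ≠ u)
    (hedge : ∀ u w, T.Adj u w → {g : G | g • u = u ∧ g • w = w}.Finite)
    (H : Subgroup G) (hH : H.FG)
    (hyp : ∀ (w : V) (F : Set G), F.Finite → (∀ g ∈ F, g • w = w ∧ g ∉ H) →
      GR H (stabilizer G w) F) : IsVirtualRetract H := by
  classical
  obtain ⟨v⟩ := hT.connected.nonempty
  have hfg : (⊤ : Subgroup H).FG := Group.fg_def.1 ((Group.fg_iff_subgroup_fg H).2 hH)
  obtain ⟨S, hS, hSf⟩ := (Subgroup.fg_iff _).1 hfg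
  obtain ⟨W, hW, hvW, hp⟩ := exists_window hT v ((fun g : H => (g : G) • v) '' S) (hSf.image _)
  let r : V → V := fun u => (Quotient.mk (orbitRel H V) u).out
  have hr : ∀ u, ∃ h : H, (h : G) • u = r u := fun u =>
    Quotient.mk_out (s := orbitRel H V) u
  choose h hh using hr
  have hr2 : ∀ (k : H) u, r ((k : G) • u) = r u := by
    intro k u
    have : Quotient.mk (orbitRel H V) ((k : G) • u) = Quotient.mk (orbitRel H V) u :=
      Quotient.sound ⟨k, rfl⟩
    simp only [r, this]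
  let F : V → Set G := fun j => ⋃ u ∈ W, ⋃ w ∈ W, ⋃ u' ∈ W, ⋃ w' ∈ W,
    {k : G | k ∉ H ∧ T.Adj j ((h u : G) • w) ∧ k • j = j ∧ k • ((h u : G) • w) = (h u' : G) • w'}
  have hFf : ∀ j, (F j).Finite := by
    intro j
    refine hW.biUnion fun u _ => hW.biUnion fun w _ => hW.biUnion fun u' _ =>
      hW.biUnion fun w' _ => ?_
    by_cases ha : T.Adj j ((h u : G) • w)
    · exact (transporter_finite (hedge _ _ ha) j ((h u' : G) • w')).subset fun k hk => hk.2.2
    · exact Set.finite_empty.subset fun k hk => ha hk.2.1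
  have hF : ∀ j, GR H (stabilizer G j) (F j) := by
    intro j
    refine hyp j (F j) (hFf j) fun k hk => ?_
    simp only [F, Set.mem_iUnion] at hk
    obtain ⟨u, -, w, -, u', -, w', -, hk⟩ := hk
    exact ⟨hk.2.2.1, hk.1⟩
  choose L0 hL1 hL2 hL3 hL4 using hF
  have : Finite (r '' W) := (hW.image r).to_subtype
  let L : r '' W → Subgroup (G × H) := fun j => L0 j
  let jf : V → r '' W := fun u => if hu : u ∈ W then ⟨r u, u, hu, rfl⟩ else ⟨r v, v, hvW, rfl⟩
  have hjf : ∀ u ∈ W, (jf u : V) = r u := by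
    intro u hu
    simp only [jf, dif_pos hu]
  let _ : MulAction (G × H) V := MulAction.compHom V (MonoidHom.fst G H)
  have hsm : ∀ (p : G × H) (u : V), p • u = p.1 • u := fun _ _ => rfl
  let s : V → Σ j, (G × H) ⧸ L j := fun u => (((h u : G), h u) : G × H)⁻¹ • base L (jf u)
  have hs : ∀ (k : H) w, w ∈ W → (k : G) • w ∈ W →
      (((k : G), k) : G × H) • s w = s ((k : G) • w) := by
    intro k w hw hw'
    simp only [s]
    rw [← mul_smul, eq_comm, base_eq]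
    refine ⟨Subtype.ext (by rw [hjf _ hw, hjf _ hw', hr2]), ?_⟩
    have := hL2 (jf ((k : G) • w)) (h ((k : G) • w) * (k * (h w)⁻¹)) (by
      rw [mem_stabilizer_iff, hjf _ hw', Subgroup.coe_mul, Subgroup.coe_mul, Subgroup.coe_inv,
        mul_smul, mul_smul]
      conv_lhs => rw [hr2, ← hh w, inv_smul_smul]
      exact hh _)
    simpa using this
  obtain ⟨M, f, h1, h2, h3, h4⟩ := key2 (Γ := G × H) hT (fun g => hG g.1) (fun g => hinv g.1)
    W s (by
    rintro ⟨g, k⟩ u w hu hw hu' hw' hadj e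
    simp only [hsm] at hu' hw' e ⊢
    simp only [s] at e
    rw [← mul_smul, eq_comm, base_eq] at e
    obtain ⟨e1, e2⟩ := e
    have e3 : r (g • u) = r u := by rw [← hjf _ hu, ← hjf _ hu', e1]
    simp only [inv_inv, Prod.inv_mk, Prod.mk_mul_mk] at e2
    have hfix : ((h (g • u) : G) * (g * (h u : G)⁻¹)) • r u = r u := by
      rw [mul_smul, mul_smul]
      conv_lhs => rw [← hh u, inv_smul_smul, hh, e3]
    have hmem : (h (g • u) : G) * (g * (h u : G)⁻¹) ∈ H := by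
      by_contra hn
      refine hL4 _ _ e2 ?_
      simp only [F, Set.mem_iUnion]
      refine ⟨u, hu, w, hw, g • u, hu', g • w, hw', hn, ?_, ?_, ?_⟩
      · rw [hjf _ hu', e3, ← hh u]
        exact hG _ _ _ hadj
      · rw [hjf _ hu', e3]
        exact hfix
      · rw [mul_smul, mul_smul, inv_smul_smul]
    have hg : g ∈ H := by
      have := H.mul_mem (H.mul_mem (H.inv_mem (h (g • u)).2) hmem) (h u).2
      simpa using this
    have e4 := hL2 (jf (g • u)) ⟨_, hmem⟩ (by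
      rw [mem_stabilizer_iff, hjf _ hu', e3]; exact hfix)
    have e5 := hL1 (jf (g • u)) _ (by
      have := (L0 _).mul_mem ((L0 _).inv_mem e2) e4
      simp only [Prod.inv_mk, Prod.mk_mul_mk, inv_mul_cancel] at this
      exact this)
    have e6 : k = ⟨g, hg⟩ := by
      rw [inv_mul_eq_one] at e5
      have := congrArg Subtype.val e5
      simp only [Subgroup.coe_mul, Subgroup.coe_inv, mul_left_cancel_iff,
        mul_right_cancel_iff] at this
      exact Subtype.ext this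
    subst e6
    exact hs ⟨g, hg⟩ w hw hw') v
  have hfree : ∀ (k : H) (z : Σ j, (G × H) ⧸ L j), (((1 : G), k) : G × H) • z = z → k = 1 := by
    intro k z hz
    obtain ⟨γ, j, rfl⟩ := base_surj L z
    rw [← mul_smul, eq_comm, base_eq] at hz
    have := hL1 j (γ.2⁻¹ * (k * γ.2)) (by
      have e := hz.2
      have : γ⁻¹ * ((1, k) * γ) = (1, γ.2⁻¹ * (k * γ.2)) := by ext <;> simp
      rwa [this] at e)
    rw [inv_mul_eq_one] at this
    simpa using this.symm
  refine vr_of_graph H M ?_ ?_ ?_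
  · intro k hk
    have e1 := h3 (1, k) 1 (one_smul G v)
    have e2 : f 1 = f ((1, k) * 1) := (h2 _ _).2 (by simpa using hk)
    rw [← e2, h1, Sum.smul_inl, Sum.inl.injEq] at e1
    exact hfree k _ e1.symm
  · intro k
    have : (⊤ : Subgroup H) ≤ M.comap (H.subtype.prod (MonoidHom.id H)) := by
      rw [← hS, Subgroup.closure_le]
      intro g hg
      obtain ⟨p, hp'⟩ := hp _ ⟨g, hg, rfl⟩
      exact h4 ((g : G), g) ⟨p, hp'⟩ (hs g v hvW (hp' _ p.end_mem_support))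
    exact this (Subgroup.mem_top k)
  · choose γ j hγ using base_surj L
    let K : r '' W → Subgroup G := fun j => (L j).map (MonoidHom.fst G H)
    have : ∀ j, (K j).FiniteIndex := fun j => hL3 j
    let c : (Σ j, (G × H) ⧸ L j) → Σ j, G ⧸ K j := fun z => (γ z).1 • base K (j z)
    have hc : ∀ z z', c z = c z' → ∃ k : H, z' = (((1 : G), k) : G × H) • z := by
      intro z z' e
      obtain ⟨e1, p, hp1, hp2⟩ := (base_eq _ _ _ _ _).1 e
      refine ⟨(γ z').2 * p.2⁻¹ * (γ z).2⁻¹, ?_⟩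
      refine (hγ z').trans (Eq.trans ?_ (congrArg _ (hγ z).symm))
      rw [← mul_smul, eq_comm, base_eq]
      refine ⟨e1, ?_⟩
      have : ((1, (γ z').2 * p.2⁻¹ * (γ z).2⁻¹) * γ z)⁻¹ * γ z' = p := by
        have hp3 : p.1 = (γ z).1⁻¹ * (γ z').1 := hp2
        ext
        · simp [hp3]
        · simp [mul_assoc]
      rw [this]
      exact hp1
    refine finiteIndex_of_fun _ (fun g => Sum.map c c (f (g, 1))) fun g g' e => ?_
    have : ∃ k : H, f (g', 1) = (((1 : G), k) : G × H) • f (g, 1) := by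
      revert e
      rcases f (g, 1) with z | z <;> rcases f (g', 1) with z' | z' <;> intro e
      · obtain ⟨k, hk⟩ := hc z z' (Sum.inl.inj e)
        exact ⟨k, by rw [hk]; rfl⟩
      · exact absurd e (by simp)
      · exact absurd e (by simp)
      · obtain ⟨k, hk⟩ := hc z z' (Sum.inr.inj e)
        exact ⟨k, by rw [hk]; rfl⟩
    obtain ⟨k, hk⟩ := this
    rw [← h3 _ _ (one_smul G v), eq_comm, h2] at hk
    exact ⟨_, hk, by simp⟩

end Core

end Pool.Agent.Lib.LR28
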