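import Mathlib

/-! Virtual retracts, property (LR), separability of simultaneous conjugacy. -/

namespace Pool.Agent.Lib.LR28

/-- `H` is a retract of a finite index subgroup of `G` that contains it -/
def IsVirtualRetract {G : Type*} [Group G] (H : Subgroup G) : Prop :=
  ∃ K : Subgroup G, K.FiniteIndex ∧ ∃ hHK : H ≤ K, ∃ ρ : K →* H, ∀ h : H, ρ ⟨h, hHK h.2⟩ = h

/-- property (LR): every finitely generated subgroup is a virtual retract -/
def HasLR (G : Type*) [Group G] : Prop :=
  ∀ H : Subgroup G, H.FG → IsVirtualRetract H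

/-- a family of elements of `E₁` and a family of elements of `E₂` that are simultaneously
conjugate in every finite quotient of `A` are simultaneously conjugate in `A` -/
def SepConj {A : Type*} [Group A] (E₁ E₂ : Subgroup A) : Prop :=
  ∀ Φ : Set (A × A), (∀ p ∈ Φ, p.1 ∈ E₁ ∧ p.2 ∈ E₂) →
    (∀ N : Subgroup A, N.Normal → N.FiniteIndex →
      ∃ a : A, ∀ p ∈ Φ, p.2⁻¹ * (a * p.1 * a⁻¹) ∈ N) →
    ∃ a : A, ∀ p ∈ Φ, p.2 = a * p.1 * a⁻¹

end Pool.Agent.Lib.LR28
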