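import Pool.Agent.Lib.LR28.Comb

/-! Vertex groups are virtual retracts when the fusion of the edge groups is separable. -/

namespace Pool.Agent.Lib.LR28

open SimpleGraph MulAction

/-- the count of fixed points given by the Moebius coefficients -/
theorem marks {Q : Type*} [Group Q] [Finite Q] (A : Subgroup Q) (F : Finset (Subgroup Q))
    (hF : ∀ S ∈ F, S ≤ A) (d : Subgroup Q → ℤ)
    (hd : ∀ x ∈ F, (open Classical in ∑ y ∈ F, (if x ≤ y then d y else 0)) = 1) (S' : Subgroup Q)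
    (hS' : ∀ a ∈ A, S'.comap (MulAut.conj a).toMonoidHom ∈ F) :
    ∑ S ∈ F, d S * (Nat.card S * {c : Q ⧸ S | (∃ a ∈ A, c = (a : Q ⧸ S)) ∧
      ∀ s ∈ S', s • c = c}.ncard : ℕ) = Nat.card A := by
  classical
  have := Fintype.ofFinite A
  have e : ∀ S ∈ F, ((Nat.card S * {c : Q ⧸ S | (∃ a ∈ A, c = (a : Q ⧸ S)) ∧
      ∀ s ∈ S', s • c = c}.ncard : ℕ) : ℤ) =
      ∑ a : A, if S'.comap (MulAut.conj (a : Q)).toMonoidHom ≤ S then 1 else 0 := by
    intro S hS
    rw [← Nat.card_coe_set_eq, ← QuotientGroup.card_preimage_mk, Finset.sum_boole,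
      ← Fintype.card_subtype, ← Nat.card_eq_fintype_card]
    congr 1
    have k : ∀ a : Q, (∀ s ∈ S', s • (a : Q ⧸ S) = (a : Q ⧸ S)) ↔
        S'.comap (MulAut.conj a).toMonoidHom ≤ S := fun a => by
      refine ⟨fun h x hx => ?_, fun h s hs => ?_⟩
      · have := (h _ hx).symm
        rw [MulAction.Quotient.smul_mk, QuotientGroup.eq] at this
        simpa [mul_assoc] using this
      · rw [MulAction.Quotient.smul_mk, eq_comm, QuotientGroup.eq]
        exact h (by simpa [mul_assoc] using hs)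
    have k2 : ∀ a : Q, (∃ b ∈ A, (a : Q ⧸ S) = (b : Q ⧸ S)) → a ∈ A := by
      rintro a ⟨b, hb, e⟩
      have := A.mul_mem hb (hF S hS (QuotientGroup.eq.1 e.symm))
      simpa using this
    exact Nat.card_congr
      { toFun := fun x => ⟨⟨x.1, k2 _ x.2.1⟩, (k _).1 x.2.2⟩
        invFun := fun x => ⟨x.1.1, ⟨_, x.1.2, rfl⟩, (k _).2 x.2⟩
        left_inv := fun _ => rfl
        right_inv := fun _ => rfl }
  rw [Finset.sum_congr rfl fun S hS => by rw [e S hS, Finset.mul_sum], Finset.sum_comm,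
    Nat.card_eq_fintype_card, Fintype.card, Finset.card_eq_sum_ones, Nat.cast_sum]
  refine Finset.sum_congr rfl fun a _ => ?_
  rw [Nat.cast_one]
  exact (Finset.sum_congr rfl fun S _ => by split_ifs <;> simp).trans (hd _ (hS' a a.2))

variable {G V : Type*} [Group G] [MulAction G V] {T : SimpleGraph V}

theorem vertex_vr (hT : T.IsTree)
    (hG : ∀ (g : G) (u w : V), T.Adj u w → T.Adj (g • u) (g • w))
    (hinv : ∀ (g : G) (u w : V), T.Adj u w → g • u = w → g • w ≠ u) (v : V)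
    (Nc : Subgroup (stabilizer G v)) (hc : Ctrl T v Nc) (N : Subgroup G) [N.Normal] [N.FiniteIndex]
    (hN : ∀ a : stabilizer G v, (a : G) ∈ N → a ∈ Nc) : IsVirtualRetract (stabilizer G v) := by
  classical
  let q := QuotientGroup.mk' N
  let qA : stabilizer G v →* G ⧸ N := q.comp (stabilizer G v).subtype
  let Fam : Finset (Subgroup (G ⧸ N)) := (Set.toFinite {S | ∃ w, T.Adj v w ∧
    ∃ E : Subgroup (stabilizer G v), (∀ e ∈ E, (e : G) • w = w) ∧ S = E.map qA}).toFinset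
  have hFam : ∀ S, S ∈ Fam ↔ ∃ w, T.Adj v w ∧
      ∃ E : Subgroup (stabilizer G v), (∀ e ∈ E, (e : G) • w = w) ∧ S = E.map qA :=
    fun S => Set.Finite.mem_toFinset _
  choose wS hw1 ES hE1 hE2 using fun S : Fam => (hFam S).1 S.2
  obtain ⟨d, hd⟩ := exists_moebius Fam
  let J := (Σ S : Fam, Fin ((d S).natAbs * Nat.card (S : Subgroup (G ⧸ N)))) ⊕
    Fin (Nat.card qA.range)
  let L : J → Subgroup (G × stabilizer G v) := Sum.elim
    (fun x => (ES x.1).comap (MonoidHom.snd _ _) ⊓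
      (q.comp (MonoidHom.fst _ _)).eqLocus (qA.comp (MonoidHom.snd _ _)))
    fun _ => (MonoidHom.fst _ _).eqLocus ((stabilizer G v).subtype.comp (MonoidHom.snd _ _))
  let Sg : J → Subgroup (G ⧸ N) := Sum.elim (fun x => x.1) fun _ => qA.range
  let pos : J → Prop := Sum.elim (fun x => 0 < d x.1) fun _ => False
  have hL1 : ∀ j, ∀ p ∈ L j, q p.1 ∈ Sg j := by
    rintro (x | x) p hp
    · exact (hE2 x.1).ge ⟨p.2, hp.1, Eq.symm hp.2⟩
    · exact ⟨p.2, congrArg q (Eq.symm hp)⟩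
  have hL2 : ∀ j a, (1, a) ∈ L j → a = 1 := by
    rintro (x | x) a hp
    · refine hc.free (hw1 x.1) (hN a ?_) (hE1 x.1 a hp.1)
      have : q 1 = q a := hp.2
      rw [map_one] at this
      exact (QuotientGroup.eq_one_iff _).1 this.symm
    · exact Subtype.ext (Eq.symm hp)
  have hL3 : ∀ j g, q g ∈ Sg j → (j.isRight → g • v = v) → ∃ y, (g, y) ∈ L j := by
    rintro (x | x) g h1 h2
    · obtain ⟨y, hy, e⟩ := (hE2 x.1).le h1
      exact ⟨y, hy, e.symm⟩
    · exact ⟨⟨g, h2 rfl⟩, rfl⟩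
  let _ : MulAction (G × stabilizer G v) V := MulAction.compHom V (MonoidHom.fst G _)
  have hsm : ∀ (p : G × stabilizer G v) (u : V), p • u = p.1 • u := fun _ _ => rfl
  choose γ jx hγ using base_surj L
  let p : (Σ j, (G × stabilizer G v) ⧸ L j) → Σ j, (G ⧸ N) ⧸ Sg j := fun z =>
    q (γ z).1 • base Sg (jx z)
  have hp : ∀ (g : G × stabilizer G v) j, p (g • base L j) = q g.1 • base Sg j := fun g j => by
    obtain ⟨e1, e2⟩ := (base_eq _ _ _ _ _).1 (hγ (g • base L j)).symm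
    refine (base_eq _ _ _ _ _).2 ⟨e1, ?_⟩
    simpa using hL1 _ _ e2
  have hp1 : ∀ (g : G × stabilizer G v) z, p (g • z) = q g.1 • p z := fun g z => by
    obtain ⟨k, j, rfl⟩ := base_surj L z
    rw [← mul_smul, hp, hp, ← mul_smul, Prod.fst_mul, map_mul]
  have hp2 : ∀ z, (p z).1 = z.1 := fun z => by
    obtain ⟨k, j, rfl⟩ := base_surj L z
    rw [hp]
    rfl
  let B : V → (Σ j, (G × stabilizer G v) ⧸ L j) → Prop := fun u z =>
    ∃ (g : G × stabilizer G v) (j : J), g.1 • v = u ∧ z = g • base L j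
  have hB : ∀ (g : G × stabilizer G v) u z, B u z → B (g.1 • u) (g • z) := by
    rintro g _ _ ⟨k, j, rfl, rfl⟩
    exact ⟨g * k, j, mul_smul _ _ _, (mul_smul _ _ _).symm⟩
  have hB' : ∀ (g : G × stabilizer G v) u z, B (g.1 • u) (g • z) → B u z := fun g u z h => by
    simpa using hB g⁻¹ _ _ h
  have hfree : ∀ (a : stabilizer G v) (z : Σ j, (G × stabilizer G v) ⧸ L j),
      (((1 : G), a) : G × stabilizer G v) • z = z → a = 1 := by
    intro k z hz
    obtain ⟨g, j, rfl⟩ := base_surj L z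
    rw [← mul_smul, eq_comm, base_eq] at hz
    have := hL2 j (g.2⁻¹ * (k * g.2)) (by
      have e := hz.2
      have : g⁻¹ * ((1, k) * g) = (1, g.2⁻¹ * (k * g.2)) := by ext <;> simp
      rwa [this] at e)
    rw [inv_mul_eq_one] at this
    simpa using this.symm
  have hso : ∀ z z', (z.1.isRight → B v z) → (z'.1.isRight → B v z') → p z = p z' →
      ∃ a : stabilizer G v, z' = (((1 : G), a) : G × stabilizer G v) • z := by
    have k : ∀ z : Σ j, (G × stabilizer G v) ⧸ L j, (z.1.isRight → B v z) →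
        ∃ (g : G × stabilizer G v) (j : J), (j.isRight → g.1 • v = v) ∧ z = g • base L j := by
      intro z hz
      by_cases h : z.1.isRight
      · obtain ⟨g, j, a, b⟩ := hz h
        exact ⟨g, j, fun _ => a, b⟩
      · obtain ⟨g, j, rfl⟩ := base_surj L z
        exact ⟨g, j, fun h' => absurd h' h, rfl⟩
    intro z z' h h' e
    obtain ⟨g, j, a, rfl⟩ := k z h
    obtain ⟨g', j', a', rfl⟩ := k z' h'
    rw [hp, hp, base_eq] at e
    obtain ⟨rfl, e⟩ := e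
    obtain ⟨y, hy⟩ := hL3 j (g.1⁻¹ * g'.1) (by simpa using e) fun h => by
      rw [mul_smul, a' h, inv_smul_eq_iff, a h]
    refine ⟨g'.2 * y⁻¹ * g.2⁻¹, ?_⟩
    rw [← mul_smul, eq_comm, base_eq]
    refine ⟨rfl, ?_⟩
    have : ((1, g'.2 * y⁻¹ * g.2⁻¹) * g)⁻¹ * g' = (g.1⁻¹ * g'.1, y) := by
      ext
      · simp
      · simp [mul_assoc]
    rwa [this]
  let Bq : (Σ j, (G ⧸ N) ⧸ Sg j) → Prop := fun ω => ∃ a ∈ qA.range, ∃ j, ω = a • base Sg j
  have hBq : ∀ a ∈ qA.range, ∀ ω, Bq ω → Bq (a • ω) := by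
    rintro a ha _ ⟨b, hb, j, rfl⟩
    exact ⟨a * b, mul_mem ha hb, j, (mul_smul _ _ _).symm⟩
  have hBp : ∀ z, B v z → Bq (p z) := by
    rintro _ ⟨g, j, h, rfl⟩
    exact ⟨q g.1, ⟨⟨g.1, h⟩, rfl⟩, j, hp g j⟩
  have hv : ∀ w, T.Adj v w → ∃ β, IsBij (fun z => ¬pos z.1 ∧ B v z) (fun z => pos z.1 ∧ B v z) β ∧
      ∀ g : G × stabilizer G v, g.1 • v = v → g.1 • w = w → ∀ x y, β x y → β (g • x) (g • y) := by
    intro w hw
    let E : Subgroup (stabilizer G v) := (stabilizer G w).subgroupOf (stabilizer G v)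
    have hEA : E.map qA ≤ qA.range := by
      rintro _ ⟨e, -, rfl⟩
      exact ⟨e, rfl⟩
    obtain ⟨R, b1, b2⟩ := burnside (E.map qA) _
      (fun ω : Σ j, (G ⧸ N) ⧸ Sg j => ¬pos ω.1 ∧ Bq ω)
      (fun ω : Σ j, (G ⧸ N) ⧸ Sg j => pos ω.1 ∧ Bq ω) rfl (Set.toFinite _) (Set.toFinite _) (fun g hg ω h => ⟨h.1, hBq g (hEA hg) ω h.2⟩)
      (fun g hg ω h => ⟨h.1, hBq g (hEA hg) ω h.2⟩) fun S' hS' => by
      have k1 := marks qA.range Fam (fun S hS => by
        obtain ⟨w, -, E, -, rfl⟩ := (hFam S).1 hS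
        rintro _ ⟨e, -, rfl⟩
        exact ⟨e, rfl⟩) d (fun x hx => (Finset.sum_congr rfl fun y _ => by congr).trans (hd x hx))
        S' (by
        rintro _ ⟨a, rfl⟩
        refine (hFam _).2 ⟨(a : G)⁻¹ • w, ?_, (stabilizer G ((a : G)⁻¹ • w)).subgroupOf _ ⊓
          (S'.comap (MulAut.conj (qA a)).toMonoidHom).comap qA, fun e he => he.1, ?_⟩
        · have := hG (a : G)⁻¹ _ _ hw
          rwa [inv_smul_eq_iff.2 (Eq.symm a.2)] at this
        · refine le_antisymm (fun x hx => ?_) (by rintro _ ⟨e, he, rfl⟩; exact he.2)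
          obtain ⟨e, he, e1⟩ := hS' hx
          have e2 : qA (a⁻¹ * e * a) = x := by
            rw [map_mul, map_mul, e1]
            simp [mul_assoc]
          refine ⟨a⁻¹ * e * a, ⟨?_, ?_⟩, e2⟩
          · show ((a : G)⁻¹ * e * a) • (a : G)⁻¹ • w = _
            rw [mul_smul, mul_smul, smul_inv_smul, show (e : G) • w = w from he]
          · exact Subgroup.mem_comap.2 (e2 ▸ hx))
      have k2 : ∀ (j : J) (c : (G ⧸ N) ⧸ Sg j), Bq ⟨j, c⟩ ↔ ∃ a ∈ qA.range, c = a := by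
        intro j c
        refine ⟨?_, fun ⟨a, ha, e⟩ => ⟨a, ha, j, by rw [smul_base, e]⟩⟩
        rintro ⟨a, ha, j', e⟩
        rw [smul_base] at e
        obtain ⟨rfl, e'⟩ := Sigma.mk.inj_iff.1 e
        exact ⟨a, ha, eq_of_heq e'⟩
      obtain ⟨cS, hcS⟩ : ∃ cS : Subgroup (G ⧸ N) → ℕ, ∀ S : Subgroup (G ⧸ N),
        {c : (G ⧸ N) ⧸ S | (∃ a ∈ qA.range, c = a) ∧ ∀ s ∈ S', s • c = c}.ncard = cS S :=
        ⟨_, fun _ => rfl⟩
      simp only [hcS] at k1
      have k3 : ∀ (P : J → Prop) (j : J), {c : (G ⧸ N) ⧸ Sg j | (P j ∧ Bq ⟨j, c⟩) ∧ ∀ s ∈ S',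
          s • (⟨j, c⟩ : Σ j, (G ⧸ N) ⧸ Sg j) = ⟨j, c⟩}.ncard = if P j then cS (Sg j) else 0 := by
        intro P j
        split_ifs with h
        · simp only [h, true_and, k2, Sigma.smul_mk, Sigma.mk.inj_iff, heq_eq_eq, hcS]
        · simp [h]
      have k4 : cS qA.range = 1 := by
        rw [← hcS]
        refine Set.ncard_eq_one.2 ⟨((1 : G ⧸ N) : (G ⧸ N) ⧸ qA.range), ?_⟩
        ext c
        refine ⟨fun ⟨⟨a, ha, e⟩, _⟩ => e.trans (QuotientGroup.eq.2 (by simpa using ha)), ?_⟩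
        rintro rfl
        refine ⟨⟨1, one_mem _, rfl⟩, fun s hs => ?_⟩
        rw [MulAction.Quotient.smul_mk, QuotientGroup.eq]
        simpa using hEA (hS' hs)
      rw [ncard_sigma, ncard_sigma, Finset.sum_congr rfl fun j _ => k3 (fun j => ¬pos j) j,
        Finset.sum_congr rfl fun j _ => k3 pos j, Fintype.sum_sum_type, Fintype.sum_sum_type,
        Fintype.sum_sigma, Fintype.sum_sigma]
      simp only [pos, Sg, Sum.elim_inl, Sum.elim_inr, not_false_eq_true, if_true, if_false, k4,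
        Finset.sum_const, Finset.card_univ, Fintype.card_fin, smul_eq_mul, mul_one, mul_zero,
        add_zero]
      rw [← Finset.sum_coe_sort] at k1
      zify at k1 ⊢
      rw [← k1, ← Finset.sum_add_distrib]
      refine Finset.sum_congr rfl fun S _ => ?_
      by_cases h : 0 < d S
      · simp only [h, not_true_eq_false, if_true, if_false, abs_of_pos h]
        ring
      · simp only [h, not_false_eq_true, if_true, if_false, abs_of_nonpos (not_lt.1 h)]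
        ring
    let φ : E →* G × stabilizer G v :=
      ((stabilizer G v).subtype.comp E.subtype).prod E.subtype
    obtain ⟨σ, hσ⟩ := exists_section φ (qA.comp E.subtype) p (fun e z => hp1 _ z) Bq
      (fun e ω => hBq _ ⟨e, rfl⟩ ω) (B v) (fun e z h => by
        have := hB (φ e) _ _ h
        rwa [show (φ e).1 • v = v from e.1.2] at this) (by
      rintro _ ⟨_, ⟨a, rfl⟩, x | x, rfl⟩
      · obtain ⟨b, hb⟩ := hc w (wS x.1) hw (hw1 x.1)
          {y | y.1 ∈ E ∧ y.2 ∈ ES x.1 ∧ qA y.2 = qA (a⁻¹ * y.1 * a)}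
          (fun y hy => ⟨hy.1, hE1 _ _ hy.2.1⟩) ⟨a⁻¹, fun y hy => hN _ (by
            have := QuotientGroup.eq.1 hy.2.2
            simpa using this)⟩
        refine ⟨(((a : G), b⁻¹) : G × stabilizer G v) • base L _, ⟨(a, b⁻¹), _, a.2, rfl⟩, hp _ _,
          fun e he => ?_⟩
        rw [← mul_smul, eq_comm, base_eq] at he ⊢
        obtain ⟨y, hy, e1⟩ := (hE2 x.1).le he.2
        have e2 : qA y = qA (a⁻¹ * e * a) := by
          rw [e1, map_mul, map_mul, map_inv, mul_assoc]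
          rfl
        have e3 : y = b * e * b⁻¹ := hb (e, y) ⟨e.2, hy, e2⟩
        have e4 : (((a : G), b⁻¹) : G × stabilizer G v)⁻¹ * (φ e * ((a : G), b⁻¹)) =
            (((a⁻¹ * e * a : stabilizer G v) : G), y) := by
          rw [e3]
          ext <;> simp [φ, mul_assoc]
        rw [e4]
        exact ⟨rfl, hy, e2.symm⟩
      · refine ⟨(((a : G), a) : G × stabilizer G v) • base L _, ⟨(a, a), _, a.2, rfl⟩, hp _ _,
          fun e _ => ?_⟩
        rw [← mul_smul, base_eq]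
        exact ⟨rfl, rfl⟩)
    have s1 : ∀ (a : stabilizer G v) ω, Bq ω →
        p ((((1 : G), a) : G × stabilizer G v) • σ ω) = ω ∧
        B v ((((1 : G), a) : G × stabilizer G v) • σ ω) := fun a ω h =>
      ⟨by rw [hp1, (hσ ω h).2.1, map_one, one_smul], by simpa using hB (1, a) _ _ (hσ ω h).1⟩
    have s2 : ∀ z, B v z → ∃ a : stabilizer G v,
        z = (((1 : G), a) : G × stabilizer G v) • σ (p z) := fun z h =>
      hso _ _ (fun _ => (hσ _ (hBp z h)).1) (fun _ => h) (hσ _ (hBp z h)).2.1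
    have s3 : ∀ (a a' : stabilizer G v) ω ω', Bq ω → Bq ω' →
        (((1 : G), a) : G × stabilizer G v) • σ ω = (((1 : G), a') : G × stabilizer G v) • σ ω' →
        ω = ω' ∧ a = a' := by
      intro a a' ω ω' h h' e
      have e1 : ω = ω' := by rw [← (s1 a ω h).1, e, (s1 a' ω' h').1]
      subst e1
      refine ⟨rfl, (inv_mul_eq_one.1 (hfree (a'⁻¹ * a) (σ ω) ?_)).symm⟩
      rw [← inv_smul_eq_iff, ← mul_smul] at e
      simpa using e
    refine ⟨fun z z' => ∃ ω ω', ∃ a : stabilizer G v, (¬pos ω.1 ∧ Bq ω) ∧ (pos ω'.1 ∧ Bq ω') ∧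
      R ω ω' ∧ z = (((1 : G), a) : G × stabilizer G v) • σ ω ∧
      z' = (((1 : G), a) : G × stabilizer G v) • σ ω', ⟨?_, ?_, ?_, ?_⟩, ?_⟩
    · intro z hz
      have h1 : ¬pos (p z).1 ∧ Bq (p z) := ⟨by rw [hp2]; exact hz.1, hBp z hz.2⟩
      obtain ⟨ω', h2, h3⟩ := b1.1 _ h1
      obtain ⟨a, ha⟩ := s2 z hz.2
      exact ⟨_, ⟨by rw [← hp2, (s1 a ω' h2.2).1]; exact h2.1, (s1 a ω' h2.2).2⟩, _, ω', a, h1, h2,
        h3, ha, rfl⟩
    · intro z hz
      have h1 : pos (p z).1 ∧ Bq (p z) := ⟨by rw [hp2]; exact hz.1, hBp z hz.2⟩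
      obtain ⟨ω', h2, h3⟩ := b1.2.1 _ h1
      obtain ⟨a, ha⟩ := s2 z hz.2
      exact ⟨_, ⟨by rw [← hp2, (s1 a ω' h2.2).1]; exact h2.1, (s1 a ω' h2.2).2⟩, ω', _, a, h2, h1,
        h3, rfl, ha⟩
    · rintro _ _ _ - - - ⟨ω, ω', a, h1, h2, h3, rfl, rfl⟩ ⟨η, η', b, h4, h5, h6, e, rfl⟩
      obtain ⟨rfl, rfl⟩ := s3 _ _ _ _ h1.2 h4.2 e
      rw [b1.2.2.1 _ _ _ h1 h2 h5 h3 h6]
    · rintro _ _ _ - - - ⟨ω, ω', a, h1, h2, h3, rfl, rfl⟩ ⟨η, η', b, h4, h5, h6, rfl, e⟩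
      obtain ⟨rfl, rfl⟩ := s3 _ _ _ _ h2.2 h5.2 e
      rw [b1.2.2.2 _ _ _ h2 h1 h4 h3 h6]
    · rintro ⟨g, a0⟩ g1 g2 _ _ ⟨ω, ω', a, h1, h2, h3, rfl, rfl⟩
      let e : E := ⟨⟨g, g1⟩, g2⟩
      have e1 : ∀ ω, Bq ω → ((g, a0) : G × stabilizer G v) •
          (((1 : G), a) : G × stabilizer G v) • σ ω =
          (((1 : G), a0 * a * (e : stabilizer G v)⁻¹) : G × stabilizer G v) •
            σ ((qA.comp E.subtype) e • ω) := fun ω h => by
        rw [(hσ ω h).2.2 e, ← mul_smul, ← mul_smul]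
        congr 1
        ext <;> simp [φ, e]
      exact ⟨qA e • ω, qA e • ω', _, ⟨h1.1, hBq _ ⟨e, rfl⟩ _ h1.2⟩, ⟨h2.1, hBq _ ⟨e, rfl⟩ _ h2.2⟩,
        b2 _ ⟨e, e.2, rfl⟩ _ _ h3, e1 ω h1.2, e1 ω' h2.2⟩
  let Fib : V → (Σ j, (G × stabilizer G v) ⧸ L j) → Prop := fun u z =>
    (pos z.1 ∧ ¬B u z) ∨ (¬pos z.1 ∧ B u z)
  have hu : ∀ u w, T.Adj u w → ∃ R, IsBij (Fib u) (fun z => pos z.1) R ∧
      ∀ g : G × stabilizer G v, g.1 • u = u → g.1 • w = w → ∀ x y, R x y → R (g • x) (g • y) := by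
    intro u w h
    have : ∃ β, IsBij (fun z => ¬pos z.1 ∧ B u z) (fun z => pos z.1 ∧ B u z) β ∧
        ∀ g : G × stabilizer G v, g.1 • u = u → g.1 • w = w →
          ∀ x y, β x y → β (g • x) (g • y) := by
      by_cases e : ∃ k : G, k • v = u
      · obtain ⟨k, rfl⟩ := e
        obtain ⟨β, c1, c2⟩ := hv (k⁻¹ • w) (by simpa using hG k⁻¹ _ _ h)
        have c3 : ∀ z, B (k • v) z ↔ B v (((k⁻¹, 1) : G × stabilizer G v) • z) := fun z =>
          ⟨fun h => by simpa using hB (k⁻¹, 1) _ _ h,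
            fun h => hB' (k⁻¹, 1) _ _ (by simpa using h)⟩
        refine ⟨_, (c1.smul ((k⁻¹, 1) : G × stabilizer G v)).congr
          (fun z => and_congr Iff.rfl (c3 z)) (fun z => and_congr Iff.rfl (c3 z)),
          fun g g1 g2 x y hb => ?_⟩
        have := c2 ((k⁻¹, 1) * g * (k⁻¹, 1)⁻¹) (by simp [mul_smul, g1]) (by simp [mul_smul, g2])
          _ _ hb
        simpa only [mul_smul, inv_smul_smul] using this
      · have c : ∀ z, ¬B u z := fun z ⟨g, _, a, _⟩ => e ⟨g.1, a⟩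
        exact ⟨fun _ _ => False, ⟨fun z hz => absurd hz.2 (c z), fun z hz => absurd hz.2 (c z),
          fun _ _ _ _ _ _ a => a.elim, fun _ _ _ _ _ _ a => a.elim⟩, fun _ _ _ _ _ a => a⟩
    obtain ⟨β, c1, c2⟩ := this
    refine ⟨_, ((IsBij.refl fun z => pos z.1 ∧ ¬B u z).union c1 (fun z a b => b.1 a.1)
      (fun z a b => a.2 b.2)).congr (fun z => Iff.rfl) (fun z => by tauto), fun g g1 g2 => ?_⟩
    have c3 : ∀ z, B u (g • z) ↔ B u z := fun z =>
      ⟨fun h => hB' g _ _ (by rwa [g1]), fun h => g1 ▸ hB g _ _ h⟩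
    rintro x y (⟨a, b, rfl⟩ | ⟨a, b, c⟩)
    · exact Or.inl ⟨⟨a.1, mt (c3 _).1 a.2⟩, ⟨a.1, mt (c3 _).1 a.2⟩, rfl⟩
    · exact Or.inr ⟨⟨a.1, (c3 _).2 a.2⟩, ⟨b.1, (c3 _).2 b.2⟩, c2 g g1 g2 _ _ c⟩
  obtain ⟨M, f, h1, h2, h3, h4, -⟩ := gls (Γ := G × stabilizer G v) hT (fun g => hG g.1)
    (fun g => hinv g.1) Fib (fun g u z h => h.imp (fun a => ⟨a.1, mt (hB' g u z) a.2⟩)
      fun a => ⟨a.1, hB g u z a.2⟩) (fun _ _ _ _ => False)
    (fun _ _ _ _ _ a => a) (fun _ _ _ _ a => a) (fun _ _ _ _ a => a.elim) (fun u w h => by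
      obtain ⟨R, c1, c2⟩ := hu u w h
      obtain ⟨R', c3, c4⟩ := hu w u h.symm
      exact ⟨_, c1.trans c3.symm, fun g g1 g2 x y ⟨m, a, b, c⟩ =>
        ⟨g • m, a, c2 g g1 g2 _ _ b, c4 g g2 g1 _ _ c⟩, fun _ _ a => a.elim⟩)
    v (base L (Sum.inr ⟨0, Nat.card_pos⟩))
    (Or.inr ⟨id, 1, _, one_smul G v, (one_smul _ _).symm⟩)
  refine vr_of_graph _ M (fun a ha => ?_) (fun a => ?_) ?_
  · have e1 := h4 (1, a) 1 (one_smul G v)
    rw [mul_one, ← (h3 1 _).2 (by simpa using ha)] at e1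
    exact hfree a _ e1.symm
  · have e1 := h4 ((a : G), a) 1 a.2
    rw [mul_one, h1] at e1
    have := (h3 1 ((a : G), a)).1 (by
      rw [e1, h1]
      nth_rw 1 [← one_smul (G × stabilizer G v) (base L _)]
      exact (base_eq _ _ _ _ _).2 ⟨rfl, by rw [inv_one, one_mul]; rfl⟩)
    simpa using this
  · refine finiteIndex_of_fun _ (fun g => p (f (g, 1))) fun g g' e => ?_
    have k : ∀ z, Fib v z → z.1.isRight → B v z := by
      rintro ⟨x | x, c⟩ (h | h) h'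
      · exact absurd h' (by simp)
      · exact h.2
      · exact h.1.elim
      · exact h.2
    obtain ⟨a, ha⟩ := hso _ _ (k _ (h2 _)) (k _ (h2 _)) e
    rw [← h4 _ _ (one_smul G v), eq_comm, h3] at ha
    exact ⟨_, ha, by simp⟩

theorem combination (hT : T.IsTree)
    (hG : ∀ (g : G) (u w : V), T.Adj u w → T.Adj (g • u) (g • w))
    (hinv : ∀ (g : G) (u w : V), T.Adj u w → g • u = w → g • w ≠ u)
    (hedge : ∀ u w, T.Adj u w → {g : G | g • u = u ∧ g • w = w}.Finite)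
    (hfin : ∃ F : Finset (V × V), ∀ u w, T.Adj u w → ∃ g : G, (g • u, g • w) ∈ F)
    (hLR : ∀ v : V, HasLR (stabilizer G v))
    (hfus : ∀ v w w', T.Adj v w → T.Adj v w' →
      SepConj ((stabilizer G w).subgroupOf (stabilizer G v))
        ((stabilizer G w').subgroupOf (stabilizer G v))) : HasLR G := by
  choose N hN1 hN2 using fun v => exists_ctrl hG hedge hfin v (hfus v)
  refine fun H hH => core hT hG hinv hedge H hH fun w F hF hF' => ?_
  obtain ⟨K, hK1, hK2⟩ := cover hT hG hinv hfin N hN1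
    (fun u w h g hg e => (hN2 u).free h hg e) w
  have hA := vertex_vr hT hG hinv w (N w) (hN2 w) K.normalCore fun a ha =>
    hK2 a (K.normalCore_le ha)
  have hfg : ((H ⊓ stabilizer G w).subgroupOf (stabilizer G w)).FG :=
    (Group.fg_iff_subgroup_fg _).1 (by
      have := (Group.fg_iff_subgroup_fg _).2 (inf_fg hT hG hinv hedge H hH w)
      exact Group.fg_of_surjective
        (f := (Subgroup.subgroupOfEquivOfLe (H := H ⊓ stabilizer G w)
          inf_le_right).symm.toMonoidHom) (MulEquiv.surjective _))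
  have hB := hLR w _ hfg
  obtain ⟨M, h1, h2, h3⟩ := sep_finite (H ⊓ stabilizer G w) F hF fun g hg => by
    obtain ⟨M, a1, a2, a3⟩ := sep_of_vr _ hB ⟨g, (hF' g hg).1⟩ (fun e => (hF' g hg).2 e.1)
      fun b _ => cyc_sep _ (hLR w _ (zpowers_fg _))
    obtain ⟨M', b1, b2⟩ := vr_comap _ hA M a1
    exact ⟨M', b1, fun x hx => (b2 ⟨x, hx.2⟩).2 (a2 hx), fun e => a3 ((b2 ⟨g, _⟩).1 e)⟩
  exact GR_of_vr H _ F (vr_trans _ _ inf_le_right hB hA) M h1 h2 h3

end Pool.Agent.Lib.LR28
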